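import Mathlib

/-!
# Typical rank one perturbations of arbitrary operators: definitions
-/

set_option autoImplicit false

open Metric Set Filter Topology
open scoped Polynomial

namespace Pool.Agent.J4.H89.RP

variable {X : Type} [NormedAddCommGroup X] [NormedSpace ℂ X]

/-- `x ↦ T x + v(x) u` -/
noncomputable def pert (T : X →L[ℂ] X) (u : X) (v : X →L[ℂ] ℂ) : X →L[ℂ] X := T + v.smulRight u

/-- the points `z` of `W` outside the spectrum of `T` with `v (R(z) u) = 1`, `v (R(z)² u) ≠ 0`,
`R(z) = (z - T)⁻¹` -/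
def roots (T : X →L[ℂ] X) (u : X) (v : X →L[ℂ] ℂ) : Set ℂ :=
  {z | z ∉ spectrum ℂ T ∧ v (resolvent T z u) = 1 ∧ v (resolvent T z (resolvent T z u)) ≠ 0}

/-- `T` is algebraic -/
def Algebraic (T : X →L[ℂ] X) : Prop := ∃ p : ℂ[X], p ≠ 0 ∧ Polynomial.aeval T p = 0

/-- the closed span of the eigenvectors for `M` -/
noncomputable def spanOf (T : X →L[ℂ] X) (u : X) (M : Set ℂ) : Submodule ℂ X :=
  (Submodule.span ℂ ((fun z => resolvent T z u) '' M)).topologicalClosure

end Pool.Agent.J4.H89.RP
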