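import Mathlib
import Pool.Agent.J4.H89.RP.Defs

/-!
# Typical rank one perturbations of arbitrary operators: ALG (helper92)
-/

set_option autoImplicit false

open Metric Set Filter Topology
open scoped Polynomial

namespace Pool.Agent.J4.H89.RP

variable {X : Type} [NormedAddCommGroup X] [NormedSpace ℂ X]

/-- `q(z) - q(T) = (z - T) P(z)` with `P` entire -/
theorem exists_quot (T : X →L[ℂ] X) (q : ℂ[X]) :
    ∃ P : ℂ → (X →L[ℂ] X), Differentiable ℂ P ∧
      ∀ z, algebraMap ℂ (X →L[ℂ] X) (q.eval z) - Polynomial.aeval T q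
        = (algebraMap ℂ (X →L[ℂ] X) z - T) * P z := by
  induction q using Polynomial.induction_on with
  | C a =>
    refine ⟨fun _ => 0, differentiable_const 0, fun z => ?_⟩
    simp
  | add p q hp hq =>
    obtain ⟨P, hP, hP'⟩ := hp
    obtain ⟨Q, hQ, hQ'⟩ := hq
    refine ⟨fun z => P z + Q z, hP.add hQ, fun z => ?_⟩
    rw [mul_add, ← hP', ← hQ']
    simp only [Polynomial.eval_add, map_add]
    abel
  | monomial n a h =>
    obtain ⟨P, hP, hP'⟩ := h
    refine ⟨fun z => z • P z + Polynomial.aeval T (Polynomial.C a * Polynomial.X ^ n), ?_,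
      fun z => ?_⟩
    · exact (differentiable_id.smul hP).add_const _
    · have e : (Polynomial.C a * Polynomial.X ^ (n + 1) : ℂ[X])
          = (Polynomial.C a * Polynomial.X ^ n) * Polynomial.X := by ring
      rw [e]
      set r : ℂ[X] := Polynomial.C a * Polynomial.X ^ n with hr
      have h1 := hP' z
      have hcomm : Polynomial.aeval T r * T = T * Polynomial.aeval T r := by
        have : Polynomial.aeval T r * Polynomial.aeval T (Polynomial.X : ℂ[X])
            = Polynomial.aeval T (Polynomial.X : ℂ[X]) * Polynomial.aeval T r := by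
          rw [← map_mul, ← map_mul, mul_comm]
        simpa using this
      have h2 : (algebraMap ℂ (X →L[ℂ] X) z - T) * (z • P z)
          = z • (algebraMap ℂ (X →L[ℂ] X) (r.eval z) - Polynomial.aeval T r) := by
        rw [mul_smul_comm, ← h1]
      rw [mul_add, h2]
      simp only [Polynomial.eval_mul, Polynomial.eval_X, map_mul, Polynomial.aeval_X]
      rw [hcomm, sub_mul, smul_sub, Algebra.smul_def, Algebra.smul_def, ← map_mul, ← map_mul,
        mul_comm z]
      abel

theorem algebraic_of_growth [CompleteSpace X] [Nontrivial X] (T : X →L[ℂ] X)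
    (hf : (spectrum ℂ T).Finite)
    (h : ∀ c ∈ spectrum ℂ T, ∃ (n : ℕ) (C : ℝ), ∀ᶠ z in 𝓝[(spectrum ℂ T)ᶜ] c,
      ‖z - c‖ ^ n * ‖resolvent T z‖ ≤ C) : Algebraic T := by
  classical
  choose! n C hnC using h
  set K := spectrum ℂ T with hK
  set q : ℂ[X] := ∏ c ∈ hf.toFinset, (Polynomial.X - Polynomial.C c) ^ (n c + 2) with hq
  have hq0 : q ≠ 0 := by
    rw [hq, Finset.prod_ne_zero_iff]
    intro c _
    exact pow_ne_zero _ (Polynomial.X_sub_C_ne_zero c)
  refine ⟨q, hq0, ?_⟩
  obtain ⟨P, hP, hP'⟩ := exists_quot T q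
  -- `Φ = q R` (the resolvent is `0` on the spectrum)
  have hres0 : ∀ z ∈ K, resolvent T z = 0 := by
    intro z hz
    unfold resolvent
    exact Ring.inverse_non_unit _ (spectrum.mem_iff.1 hz)
  set Φ : ℂ → (X →L[ℂ] X) := fun z => q.eval z • resolvent T z with hΦ
  have hdiff : Differentiable ℂ Φ := by
    intro c
    by_cases hc : c ∈ K
    · -- `Φ = O(|z - c|²)`
      have hO : Φ =O[𝓝 c] fun z => ‖z - c‖ ^ 2 := by
        have hqc : ∃ q' : ℂ[X], q = q' * (Polynomial.X - Polynomial.C c) ^ (n c + 2) := by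
          refine ⟨∏ c' ∈ hf.toFinset.erase c, (Polynomial.X - Polynomial.C c') ^ (n c' + 2), ?_⟩
          rw [hq]
          exact (Finset.prod_erase_mul _ _ (hf.mem_toFinset.2 hc)).symm
        obtain ⟨q', hq'⟩ := hqc
        have hb : ∀ᶠ z in 𝓝 c, ‖q'.eval z‖ < ‖q'.eval c‖ + 1 := by
          have : ContinuousAt (fun z => ‖q'.eval z‖) c := q'.continuous.norm.continuousAt
          exact this.eventually (gt_mem_nhds (by linarith))
        have hC := hnC c hc
        rw [eventually_nhdsWithin_iff] at hC
        refine Asymptotics.IsBigO.of_bound ((‖q'.eval c‖ + 1) * |C c|) ?_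
        filter_upwards [hb, hC] with z hz1 hz2
        by_cases hzK : z ∈ K
        · simp only [hΦ, hres0 z hzK, smul_zero, norm_zero]
          positivity
        · have hz3 := hz2 hzK
          simp only [hΦ]
          rw [norm_smul, hq']
          simp only [Polynomial.eval_mul, Polynomial.eval_pow, Polynomial.eval_sub,
            Polynomial.eval_X, Polynomial.eval_C, norm_mul, norm_pow, norm_norm]
          calc ‖q'.eval z‖ * ‖z - c‖ ^ (n c + 2) * ‖resolvent T z‖
              = ‖q'.eval z‖ * (‖z - c‖ ^ n c * ‖resolvent T z‖) * ‖z - c‖ ^ 2 := by ring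
            _ ≤ (‖q'.eval c‖ + 1) * |C c| * ‖z - c‖ ^ 2 := by
                apply mul_le_mul_of_nonneg_right _ (by positivity)
                exact mul_le_mul hz1.le (hz3.trans (le_abs_self _)) (by positivity)
                  (by positivity)
      exact (hO.hasFDerivAt (𝕜 := ℂ) one_lt_two).differentiableAt
    · have h1 : DifferentiableAt ℂ (resolvent T) c :=
        (spectrum.hasDerivAt_resolvent_const_left (𝕜 := ℂ) (a := T)
          (by simpa [hK, spectrum] using hc)).differentiableAt
      exact (q.differentiable c).smul h1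
  have hres1 : ∀ z, z ∉ K → (algebraMap ℂ (X →L[ℂ] X) z - T) * resolvent T z = 1 ∧
      resolvent T z * (algebraMap ℂ (X →L[ℂ] X) z - T) = 1 := by
    intro z hz
    have hu : IsUnit (algebraMap ℂ (X →L[ℂ] X) z - T) := by
      by_contra h'
      exact hz (spectrum.mem_iff.2 h')
    unfold resolvent
    exact ⟨Ring.mul_inverse_cancel _ hu, Ring.inverse_mul_cancel _ hu⟩
  have hid : ∀ z, z ∉ K → Φ z - P z = resolvent T z * Polynomial.aeval T q := by
    intro z hz
    have h1 := congrArg (fun S => resolvent T z * S) (hP' z)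
    simp only [← mul_assoc, (hres1 z hz).2, one_mul] at h1
    rw [← h1, mul_sub, hΦ]
    simp only
    rw [Algebra.smul_def, ← Algebra.commutes]
    abel
  have hbdd : ∀ᶠ z in Bornology.cobounded ℂ, z ∉ K :=
    (hf.isBounded : Bornology.IsBounded K)
  have hlim : Tendsto (fun z => Φ z - P z) (cocompact ℂ) (𝓝 0) := by
    rw [← Metric.cobounded_eq_cocompact]
    have h1 : Tendsto (fun z => resolvent T z * Polynomial.aeval T q) (Bornology.cobounded ℂ)
        (𝓝 (0 * Polynomial.aeval T q)) :=
      (spectrum.resolvent_tendsto_cobounded (𝕜 := ℂ) T).mul_const _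
    rw [zero_mul] at h1
    refine h1.congr' ?_
    filter_upwards [hbdd] with z hz
    exact (hid z hz).symm
  have hzero : ∀ z, Φ z - P z = 0 := fun z =>
    (hdiff.sub hP).apply_eq_of_tendsto_cocompact z hlim
  obtain ⟨z, hz⟩ : ∃ z, z ∉ K := hbdd.exists
  have h1 := hid z hz
  rw [hzero z] at h1
  have h2 := congrArg (fun S => (algebraMap ℂ (X →L[ℂ] X) z - T) * S) h1
  simp only [mul_zero, ← mul_assoc, (hres1 z hz).1, one_mul] at h2
  exact h2.symm

end Pool.Agent.J4.H89.RP
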