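import Pool.Agent.J4.H89.RP.Dense2

set_option autoImplicit false

open Metric Set Filter Topology

namespace Pool.Agent.J4.H89.RP

variable {X : Type} [NormedAddCommGroup X] [NormedSpace ℂ X]

theorem hasDerivAt_A [CompleteSpace X] (T : X →L[ℂ] X) (u₀ : X) (v₀ : X →L[ℂ] ℂ) (z : ℂ)
    (hz : z ∉ spectrum ℂ T) : HasDerivAt (fun z => v₀ (resolvent T z u₀) - 1)
      (- v₀ (resolvent T z (resolvent T z u₀))) z := by
  have hz' : z ∈ resolventSet ℂ T := by
    by_contra h
    exact hz h
  have h1 : HasDerivAt (resolvent T) (-resolvent T z ^ 2) z :=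
    spectrum.hasDerivAt_resolvent_const_left hz'
  have h2 : HasDerivAt (fun z => resolvent T z u₀) ((-resolvent T z ^ 2) u₀) z := by
    have := h1.clm_apply (hasDerivAt_const z u₀)
    simpa using this
  have h3 : HasDerivAt (fun z => v₀ (resolvent T z u₀)) (v₀ ((-resolvent T z ^ 2) u₀)) z :=
    v₀.hasFDerivAt.comp_hasDerivAt z h2
  have h4 := h3.sub_const 1
  have e : v₀ ((-resolvent T z ^ 2) u₀) = - v₀ (resolvent T z (resolvent T z u₀)) := by
    rw [sq]
    simp
  rw [e] at h4
  exact h4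

/-- CONV: simple eigenvalues do not accumulate at a pole. Proof: near `c`, `z ≠ c`, the function
`h z = (z - c) ^ (n + 1) * (v (resolvent T z u) - 1)` is differentiable (`diff_A` in Dense2.lean) and bounded, so it has a
removable singularity, and it is either identically zero or without zeros in a punctured neighbourhood of `c`
(`AnalyticAt.eventually_eq_zero_or_eventually_ne_zero`). In the first case `z ↦ v (resolvent T z u)` is constant near
`z`, so its derivative `- v (R(z) (R(z) u))` is zero (`spectrum.hasDerivAt_resolvent_const_left`): no root is near `c`. In the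
second case `v (R(z) u) ≠ 1` near `c`. -/
theorem pole_no_acc [CompleteSpace X] (T : X →L[ℂ] X) (c : ℂ) (h : IsPole T c) (u : X)
    (v : X →L[ℂ] ℂ) : ∃ ε : ℝ, 0 < ε ∧ ∀ z ∈ roots T u v, z ≠ c → ε ≤ ‖z - c‖ := by
  obtain ⟨n, C, hev⟩ := h
  set g : ℂ → ℂ := fun z => v (resolvent T z u) - 1 with hg
  set H : ℂ → ℂ := fun z => (z - c) ^ (n + 1) * g z with hH
  have hdiff : ∀ᶠ z in 𝓝[≠] c, DifferentiableAt ℂ H z := by
    filter_upwards [hev] with z hz
    have := diff_A T u v z hz.1
    exact ((differentiableAt_id.sub_const c).pow (n + 1)).mul this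
  have hHc : H c = 0 := by simp [hH]
  have hbound : ∀ᶠ z in 𝓝 c, ‖H z‖ ≤ ‖z - c‖ * (C * ‖v‖ * ‖u‖ + 1) := by
    have hC0 : 0 ≤ C := by
      obtain ⟨z, hz⟩ := hev.exists
      exact le_trans (by positivity) hz.2
    have h1 : ∀ᶠ z in 𝓝[≠] c, ‖H z‖ ≤ ‖z - c‖ * (C * ‖v‖ * ‖u‖ + 1) := by
      have h2 : ∀ᶠ z in 𝓝[≠] c, ‖z - c‖ < 1 := by
        refine nhdsWithin_le_nhds ?_
        have : ball c 1 ∈ 𝓝 c := ball_mem_nhds c one_pos
        filter_upwards [this] with z hz
        rwa [mem_ball, dist_eq_norm] at hz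
      filter_upwards [hev, h2] with z hz hz1
      have h3 : ‖g z‖ ≤ ‖v‖ * (‖resolvent T z‖ * ‖u‖) + 1 := by
        calc ‖g z‖ ≤ ‖v (resolvent T z u)‖ + ‖(1 : ℂ)‖ := norm_sub_le _ _
          _ ≤ ‖v‖ * (‖resolvent T z‖ * ‖u‖) + 1 := by
            rw [norm_one]
            have := (v.le_opNorm (resolvent T z u)).trans
              (mul_le_mul_of_nonneg_left ((resolvent T z : X →L[ℂ] X).le_opNorm u) (norm_nonneg v))
            linarith
      have h4 : ‖z - c‖ ^ n ≤ 1 := pow_le_one₀ (norm_nonneg _) hz1.le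
      calc ‖H z‖ = ‖z - c‖ * (‖z - c‖ ^ n * ‖g z‖) := by
            simp only [hH]
            rw [norm_mul, norm_pow, pow_succ]; ring
        _ ≤ ‖z - c‖ * (C * ‖v‖ * ‖u‖ + 1) := by
            refine mul_le_mul_of_nonneg_left ?_ (norm_nonneg _)
            calc ‖z - c‖ ^ n * ‖g z‖ ≤ ‖z - c‖ ^ n * (‖v‖ * (‖resolvent T z‖ * ‖u‖) + 1) :=
                  mul_le_mul_of_nonneg_left h3 (by positivity)
              _ = (‖z - c‖ ^ n * ‖resolvent T z‖) * (‖v‖ * ‖u‖) + ‖z - c‖ ^ n := by ring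
              _ ≤ C * (‖v‖ * ‖u‖) + 1 := by
                have := mul_le_mul_of_nonneg_right hz.2 (by positivity : 0 ≤ ‖v‖ * ‖u‖)
                linarith
              _ = C * ‖v‖ * ‖u‖ + 1 := by ring
    rw [eventually_nhdsWithin_iff] at h1
    filter_upwards [h1] with z hz
    by_cases hzc : z = c
    · rw [hzc, hHc]; simp
    · exact hz hzc
  have hcont : ContinuousAt H c := by
    rw [ContinuousAt, hHc]
    refine squeeze_zero_norm' hbound ?_
    have : Tendsto (fun z : ℂ => ‖z - c‖ * (C * ‖v‖ * ‖u‖ + 1)) (𝓝 c)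
        (𝓝 (‖c - c‖ * (C * ‖v‖ * ‖u‖ + 1))) := by
      apply Continuous.tendsto
      fun_prop
    simpa using this
  have han : AnalyticAt ℂ H c :=
    Complex.analyticAt_of_differentiable_on_punctured_nhds_of_continuousAt hdiff hcont
  have hno : ∀ᶠ z in 𝓝[≠] c, z ∉ roots T u v := by
    rcases han.eventually_eq_zero_or_eventually_ne_zero with h0 | h0
    · have h1 : ∀ᶠ z in 𝓝[≠] c, ∀ᶠ w in 𝓝 z, H w = 0 :=
        nhdsWithin_le_nhds h0.eventually_nhds
      filter_upwards [h1, hev, self_mem_nhdsWithin] with z hz hz2 hzc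
      rintro ⟨_, _, hne⟩
      have h2 : ∀ᶠ w in 𝓝 z, g w = 0 := by
        have h3 : ∀ᶠ w in 𝓝 z, w ≠ c := isOpen_ne.mem_nhds hzc
        filter_upwards [hz, h3] with w hw hwc
        simp only [hH, mul_eq_zero] at hw
        rcases hw with hw | hw
        · exact absurd (sub_eq_zero.mp (pow_eq_zero_iff (Nat.succ_ne_zero n) |>.mp hw)) hwc
        · exact hw
      have h4 : HasDerivAt g (- v (resolvent T z (resolvent T z u))) z :=
        hasDerivAt_A T u v z hz2.1
      have h5 : HasDerivAt g 0 z := by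
        have : HasDerivAt (fun _ : ℂ => (0 : ℂ)) 0 z := hasDerivAt_const z 0
        exact this.congr_of_eventuallyEq h2
      have h6 := h4.unique h5
      exact hne (by simpa using h6)
    · filter_upwards [h0] with z hz
      rintro ⟨_, h1, _⟩
      apply hz
      simp only [hH, hg, h1]
      simp
  rw [eventually_nhdsWithin_iff, Metric.eventually_nhds_iff] at hno
  obtain ⟨ε, hε, hno⟩ := hno
  refine ⟨ε, hε, ?_⟩
  intro z hz hzc
  by_contra hcon
  push Not at hcon
  exact hno (by rwa [dist_eq_norm]) hzc hz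

end Pool.Agent.J4.H89.RP
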