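import Mathlib
import Pool.Agent.J4.H89.RP.Defs

/-! # Project RP, piece GLUE (helper45) -/

set_option autoImplicit false

open Metric Set Filter Topology
open scoped Polynomial

namespace Pool.Agent.J4.H89.RP

/-- GLUE: `Φ` differentiable off `K`, `O(dist²)` at `K`. -/
theorem glue {E : Type} [NormedAddCommGroup E] [NormedSpace ℂ E] (W K : Set ℂ) (hW : IsOpen W)
    (hK : IsClosed K) (Φ : ℂ → E) (hΦ : ∀ z ∈ W, z ∉ K → DifferentiableAt ℂ Φ z)
    (h0 : ∀ z ∈ K, Φ z = 0) (C : ℝ) (hC : ∀ z ∈ W, ‖Φ z‖ ≤ C * infDist z K ^ 2) :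
    DifferentiableOn ℂ Φ W := by
  intro z hz
  by_cases hzK : z ∈ K
  · have hO : Φ =O[𝓝 z] fun w => ‖w - z‖ ^ 2 := by
      refine Asymptotics.IsBigO.of_bound |C| ?_
      filter_upwards [hW.mem_nhds hz] with w hw
      rw [Real.norm_of_nonneg (by positivity)]
      refine (hC w hw).trans ?_
      have h1 : infDist w K ≤ ‖w - z‖ := by
        rw [← dist_eq_norm]
        exact infDist_le_dist_of_mem hzK
      calc C * infDist w K ^ 2 ≤ |C| * infDist w K ^ 2 :=
            mul_le_mul_of_nonneg_right (le_abs_self C) (by positivity)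
        _ ≤ |C| * ‖w - z‖ ^ 2 :=
            mul_le_mul_of_nonneg_left (pow_le_pow_left₀ infDist_nonneg h1 2) (abs_nonneg C)
    exact (hO.hasFDerivAt (by norm_num)).differentiableAt.differentiableWithinAt
  · exact (hΦ z hz hzK).differentiableWithinAt

end Pool.Agent.J4.H89.RP
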