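import Mathlib

/-!
# The growth of the resolvent at the spectrum
-/

set_option autoImplicit false

open Metric Set Filter Topology

namespace Pool.Agent.J4.H89.RP

variable {X : Type} [NormedAddCommGroup X] [NormedSpace ℂ X]

namespace ResAux

theorem one_le [CompleteSpace X] (T : X →L[ℂ] X) (z w : ℂ) (hz : z ∉ spectrum ℂ T)
    (hw : w ∈ spectrum ℂ T) : 1 ≤ ‖z - w‖ * ‖resolvent T z‖ := by
  by_contra hcon
  push Not at hcon
  apply spectrum.mem_iff.1 hw
  have hu : IsUnit (algebraMap ℂ (X →L[ℂ] X) z - T) := by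
    by_contra h
    exact hz (spectrum.mem_iff.2 h)
  have hinv : (algebraMap ℂ (X →L[ℂ] X) z - T) * resolvent T z = 1 :=
    Ring.mul_inverse_cancel _ hu
  have h1 : algebraMap ℂ (X →L[ℂ] X) w - T =
      (algebraMap ℂ (X →L[ℂ] X) z - T) * (1 - (z - w) • resolvent T z) := by
    rw [mul_sub, mul_one, mul_smul_comm, hinv, Algebra.algebraMap_eq_smul_one,
      Algebra.algebraMap_eq_smul_one, sub_smul]
    abel
  rw [h1]
  refine hu.mul ?_
  have h2 : ‖(z - w) • resolvent T z‖ < 1 := by
    rw [norm_smul]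
    exact hcon
  exact (Units.oneSub _ h2).isUnit

end ResAux

open ResAux

/-- growth of the resolvent at the spectrum -/
theorem res_ge [CompleteSpace X] [Nontrivial X] (T : X →L[ℂ] X) (z : ℂ) (hz : z ∉ spectrum ℂ T) :
    1 ≤ infDist z (spectrum ℂ T) * ‖resolvent T z‖ := by
  obtain ⟨w, hw, hwz⟩ := (spectrum.isCompact T).exists_infDist_eq_dist
    (spectrum.nonempty T) z
  rw [hwz, dist_eq_norm]
  exact one_le T z w hz hw

end Pool.Agent.J4.H89.RP
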