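import Mathlib

/-!
# Making a root simple
-/

set_option autoImplicit false

namespace Pool.Agent.J4.H89.RP

variable {X : Type} [NormedAddCommGroup X] [NormedSpace ℂ X]

/-- a root can be made simple -/
theorem simple (S : X →L[ℂ] X) (hS : Function.Injective S) (u : X) (v : X →L[ℂ] ℂ)
    (h : v (S u) = 1) (δ : ℝ) (hδ : 0 < δ) :
    ∃ v' : X →L[ℂ] ℂ, ‖v' - v‖ ≤ δ ∧ v' (S u) = 1 ∧ v' (S (S u)) ≠ 0 := by
  by_cases h0 : v (S (S u)) = 0
  · have h1 : S u ≠ 0 := by
      intro h1
      rw [h1, map_zero] at h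
      exact zero_ne_one h
    have h2 : S (S u) ≠ 0 := by
      intro h2
      exact h1 (hS (by rw [h2, map_zero]))
    obtain ⟨b₀, -, hb₀⟩ := exists_dual_vector'' ℂ (S (S u))
    have hb₁ : b₀ (S (S u)) ≠ 0 := by
      rw [hb₀]
      simpa using h2
    set b : X →L[ℂ] ℂ := b₀ - b₀ (S u) • v with hb
    have hbu : b (S u) = 0 := by
      rw [hb, sub_apply, smul_apply, h, smul_eq_mul,
        mul_one, sub_self]
    have hbs : b (S (S u)) ≠ 0 := by
      rw [hb, sub_apply, smul_apply, h0, smul_zero, sub_zero]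
      exact hb₁
    have hn : 0 < ‖b‖ + 1 := by positivity
    refine ⟨v + ((δ / (‖b‖ + 1) : ℝ) : ℂ) • b, ?_, ?_, ?_⟩
    · rw [add_sub_cancel_left, norm_smul, Complex.norm_real, Real.norm_of_nonneg (by positivity),
        div_mul_eq_mul_div, div_le_iff₀ hn]
      exact mul_le_mul_of_nonneg_left (by linarith) hδ.le
    · rw [add_apply, smul_apply, hbu, smul_zero, add_zero, h]
    · rw [add_apply, smul_apply, h0, zero_add, smul_eq_mul]
      refine mul_ne_zero ?_ hbs
      exact_mod_cast (by positivity : δ / (‖b‖ + 1) ≠ 0)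
  · exact ⟨v, by rw [sub_self, norm_zero]; exact hδ.le, h, h0⟩

end Pool.Agent.J4.H89.RP
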