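import Pool.Agent.J4.H89.RP.Key
import Pool.Agent.J4.H89.RP.Glue
import Pool.Agent.J4.H89.RP.Res
import Pool.Agent.J4.H89.RP.Simple

set_option autoImplicit false

open Metric Set Filter Topology
open scoped Polynomial

namespace Pool.Agent.J4.H89.RP

variable {X : Type} [NormedAddCommGroup X] [NormedSpace ℂ X]

theorem res_inj (T : X →L[ℂ] X) (z : ℂ) (hz : z ∉ spectrum ℂ T) :
    Function.Injective ⇑(resolvent T z : X →L[ℂ] X) := by
  have hz' : IsUnit (algebraMap ℂ (X →L[ℂ] X) z - T) := by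
    rw [spectrum.notMem_iff] at hz
    exact hz
  have h1 : (algebraMap ℂ (X →L[ℂ] X) z - T) * resolvent T z = 1 := by
    unfold resolvent
    exact Ring.mul_inverse_cancel _ hz'
  intro x y hxy
  have h2 : ((algebraMap ℂ (X →L[ℂ] X) z - T) * resolvent T z) x =
      ((algebraMap ℂ (X →L[ℂ] X) z - T) * resolvent T z) y := by
    exact congrArg (algebraMap ℂ (X →L[ℂ] X) z - T) hxy
  rw [h1] at h2
  simpa using h2

theorem diff_A [CompleteSpace X] (T : X →L[ℂ] X) (u₀ : X) (v₀ : X →L[ℂ] ℂ) (z : ℂ)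
    (hz : z ∉ spectrum ℂ T) : DifferentiableAt ℂ (fun z => v₀ (resolvent T z u₀) - 1) z := by
  have hz' : z ∈ resolventSet ℂ T := by
    by_contra h
    exact hz h
  have h1 : DifferentiableAt ℂ (resolvent T) z :=
    (spectrum.hasDerivAt_resolvent_const_left hz').differentiableAt
  fun_prop

/-- What happens if there are no roots in `W`: the function `G = (v₀ (R u₀) - 1)⁻²`. -/
theorem no_roots [CompleteSpace X] [Nontrivial X] (T : X →L[ℂ] X) (W : Set ℂ) (hW : IsOpen W)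
    (hcon : ¬ Dense {p : X × (X →L[ℂ] ℂ) | (roots T p.1 p.2 ∩ W).Nonempty}) :
    ∃ (u₀ : X) (v₀ : X →L[ℂ] ℂ) (C : ℝ) (Φ : ℂ → ℂ), 0 < C ∧
      (∀ z ∈ W, z ∉ spectrum ℂ T → ‖resolvent T z‖ ≤ C * ‖v₀ (resolvent T z u₀) - 1‖) ∧
      (∀ z ∈ W, z ∉ spectrum ℂ T → v₀ (resolvent T z u₀) - 1 ≠ 0) ∧
      (∀ z ∈ spectrum ℂ T, Φ z = 0) ∧
      (∀ z, z ∉ spectrum ℂ T → Φ z = ((v₀ (resolvent T z u₀) - 1)⁻¹) ^ 2) ∧
      DifferentiableOn ℂ Φ W := by
  rw [Metric.dense_iff] at hcon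
  push Not at hcon
  obtain ⟨⟨u₀, v₀⟩, r, hr, hemp⟩ := hcon
  have hball : ∀ (u : X) (v : X →L[ℂ] ℂ), ‖u - u₀‖ < r → ‖v - v₀‖ < r →
      ¬ (roots T u v ∩ W).Nonempty := by
    intro u v hu hv hne
    have : ((u, v) : X × (X →L[ℂ] ℂ)) ∈ ball ((u₀, v₀) : X × (X →L[ℂ] ℂ)) r ∩
        {p : X × (X →L[ℂ] ℂ) | (roots T p.1 p.2 ∩ W).Nonempty} := by
      refine ⟨?_, hne⟩
      rw [mem_ball, Prod.dist_eq, max_lt_iff, dist_eq_norm, dist_eq_norm]
      exact ⟨hu, hv⟩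
    rw [hemp] at this
    exact this
  set δ : ℝ := r / 3 with hδd
  have hδ : 0 < δ := by positivity
  have hno : ∀ (u : X) (v : X →L[ℂ] ℂ), ‖u - u₀‖ ≤ δ → ‖v - v₀‖ ≤ δ → ∀ z ∈ W,
      z ∉ spectrum ℂ T → v (resolvent T z u) ≠ 1 := by
    intro u v hu hv z hz hzs h1
    obtain ⟨v', hv', h2, h3⟩ := simple (resolvent T z) (res_inj T z hzs) u v h1 δ hδ
    refine hball u v' (by linarith) ?_ ⟨z, ⟨hzs, h2, h3⟩, hz⟩
    calc ‖v' - v₀‖ = ‖(v' - v) + (v - v₀)‖ := by congr 1; abel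
      _ ≤ ‖v' - v‖ + ‖v - v₀‖ := norm_add_le _ _
      _ < r := by linarith
  set C : ℝ := 3 / δ ^ 2 with hC
  have hC0 : 0 < C := by positivity
  have hkey : ∀ z ∈ W, z ∉ spectrum ℂ T →
      ‖resolvent T z‖ ≤ C * ‖v₀ (resolvent T z u₀) - 1‖ := by
    intro z hz hzs
    exact key (resolvent T z) u₀ v₀ δ hδ (fun u v hu hv => hno u v hu hv z hz hzs)
  have hA : ∀ z ∈ W, z ∉ spectrum ℂ T → v₀ (resolvent T z u₀) - 1 ≠ 0 := by
    intro z hz hzs h0
    exact hno u₀ v₀ (by simp [hδ.le]) (by simp [hδ.le]) z hz hzs (sub_eq_zero.1 h0)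
  classical
  set Φ : ℂ → ℂ := fun z => if z ∈ spectrum ℂ T then 0 else ((v₀ (resolvent T z u₀) - 1)⁻¹) ^ 2
    with hΦ
  have hσc : IsClosed (spectrum ℂ T) := spectrum.isClosed T
  have hbd : ∀ z ∈ W, z ∉ spectrum ℂ T →
      ‖(v₀ (resolvent T z u₀) - 1)⁻¹‖ ≤ C * infDist z (spectrum ℂ T) := by
    intro z hz hzs
    have h1 := res_ge T z hzs
    have h2 := hkey z hz hzs
    have h3 : 0 < ‖v₀ (resolvent T z u₀) - 1‖ := norm_pos_iff.2 (hA z hz hzs)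
    have h4 : 0 ≤ infDist z (spectrum ℂ T) := infDist_nonneg
    rw [norm_inv, inv_le_iff_one_le_mul₀ h3]
    have h5 := mul_le_mul_of_nonneg_left h2 h4
    linarith
  have hd : DifferentiableOn ℂ Φ W := by
    refine glue W (spectrum ℂ T) hW hσc Φ ?_ ?_ (C ^ 2) ?_
    · intro z hz hzs
      have h1 : ∀ᶠ w in 𝓝 z, w ∉ spectrum ℂ T := hσc.isOpen_compl.mem_nhds hzs
      have h2 : DifferentiableAt ℂ (fun z => ((v₀ (resolvent T z u₀) - 1)⁻¹) ^ 2) z :=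
        ((diff_A T u₀ v₀ z hzs).inv (hA z hz hzs)).pow 2
      refine h2.congr_of_eventuallyEq ?_
      filter_upwards [h1] with w hw
      simp only [hΦ, if_neg hw]
    · intro z hz
      simp only [hΦ, if_pos hz]
    · intro z hz
      by_cases hzs : z ∈ spectrum ℂ T
      · simp only [hΦ, if_pos hzs, norm_zero]
        positivity
      · simp only [hΦ, if_neg hzs]
        rw [norm_pow, ← mul_pow]
        exact pow_le_pow_left₀ (norm_nonneg _) (hbd z hz hzs) 2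
  exact ⟨u₀, v₀, C, Φ, hC0, hkey, hA, fun z hz => by simp only [hΦ, if_pos hz],
    fun z hz => by simp only [hΦ, if_neg hz], hd⟩

/-- The whole plane. -/
theorem dense_univ [CompleteSpace X] [Nontrivial X] (T : X →L[ℂ] X) :
    Dense {p : X × (X →L[ℂ] ℂ) | (roots T p.1 p.2 ∩ univ).Nonempty} := by
  by_contra hcon
  obtain ⟨u₀, v₀, C, Φ, hC0, hkey, hA, hΦ0, hΦ1, hd⟩ := no_roots T univ isOpen_univ hcon
  obtain ⟨c, hc⟩ : (spectrum ℂ T).Nonempty := spectrum.nonempty T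
  have hlim : Tendsto Φ (cocompact ℂ) (𝓝 1) := by
    have h1 : Tendsto (resolvent T) (cocompact ℂ) (𝓝 (0 : X →L[ℂ] X)) := by
      rw [← Metric.cobounded_eq_cocompact]
      exact spectrum.resolvent_tendsto_cobounded T
    have h2 : Tendsto (fun z => ((v₀ (resolvent T z u₀) - 1)⁻¹) ^ 2) (cocompact ℂ) (𝓝 1) := by
      have h3 : Tendsto (fun z => v₀ (resolvent T z u₀)) (cocompact ℂ) (𝓝 (v₀ ((0 : X →L[ℂ] X) u₀))) := by
        have hc : Continuous fun S : X →L[ℂ] X => v₀ (S u₀) := by fun_prop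
        exact (hc.tendsto 0).comp h1
      have h4 : Tendsto (fun z => ((v₀ (resolvent T z u₀) - 1)⁻¹) ^ 2) (cocompact ℂ)
          (𝓝 (((v₀ ((0 : X →L[ℂ] X) u₀) - 1)⁻¹) ^ 2)) := by
        refine ((h3.sub_const 1).inv₀ ?_).pow 2
        simp
      simpa using h4
    refine h2.congr' ?_
    have h5 : ∀ᶠ z in cocompact ℂ, z ∉ spectrum ℂ T :=
      (spectrum.isCompact T).compl_mem_cocompact
    filter_upwards [h5] with z hz
    exact (hΦ1 z hz).symm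
  have hdd : Differentiable ℂ Φ := by
    rwa [differentiableOn_univ] at hd
  have h6 := hdd.apply_eq_of_tendsto_cocompact c hlim
  rw [hΦ0 c hc] at h6
  exact zero_ne_one h6

/-- `c` is a pole of the resolvent (or a point where it is bounded) -/
def IsPole (T : X →L[ℂ] X) (c : ℂ) : Prop :=
  ∃ (n : ℕ) (C : ℝ), ∀ᶠ z in 𝓝[≠] c, z ∉ spectrum ℂ T ∧ ‖z - c‖ ^ n * ‖resolvent T z‖ ≤ C

/-- Density near a boundary point of the spectrum which is not a pole. -/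
theorem dense_at [CompleteSpace X] [Nontrivial X] (T : X →L[ℂ] X) (W : Set ℂ) (hW : IsOpen W)
    (c : ℂ) (hcW : c ∈ W) (hc : c ∈ frontier (spectrum ℂ T)) (hp : ¬ IsPole T c) :
    Dense {p : X × (X →L[ℂ] ℂ) | (roots T p.1 p.2 ∩ W).Nonempty} := by
  by_contra hcon
  obtain ⟨u₀, v₀, C, Φ, hC0, hkey, hA, hΦ0, hΦ1, hd⟩ := no_roots T W hW hcon
  have hσc : IsClosed (spectrum ℂ T) := spectrum.isClosed T
  have hcs : c ∈ spectrum ℂ T := hσc.frontier_subset hc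
  have han : AnalyticAt ℂ Φ c := hd.analyticAt (hW.mem_nhds hcW)
  have hnz : ¬ ∀ᶠ z in 𝓝 c, Φ z = 0 := by
    intro h0
    have h1 : ∀ᶠ z in 𝓝 c, z ∈ W := hW.mem_nhds hcW
    have h2 : c ∈ closure (spectrum ℂ T)ᶜ := by
      rw [frontier_eq_closure_inter_closure] at hc
      exact hc.2
    rw [mem_closure_iff_frequently] at h2
    obtain ⟨z, hz1, hz2, hz3⟩ := (h2.and_eventually (h0.and h1)).exists
    rw [hΦ1 z hz1] at hz2
    exact hA z hz3 hz1 (inv_eq_zero.1 (pow_eq_zero_iff (two_ne_zero) |>.1 hz2))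
  obtain ⟨n, g, hg, hg0, hev⟩ := (han.exists_eventuallyEq_pow_smul_nonzero_iff).2 hnz
  obtain ⟨m, hm, hgm⟩ : ∃ m : ℝ, 0 < m ∧ ∀ᶠ z in 𝓝 c, m ≤ ‖g z‖ := by
    refine ⟨‖g c‖ / 2, by positivity, ?_⟩
    have h1 : Tendsto (fun z => ‖g z‖) (𝓝 c) (𝓝 ‖g c‖) := hg.continuousAt.norm
    have h2 : ‖g c‖ / 2 < ‖g c‖ := by
      have : 0 < ‖g c‖ := norm_pos_iff.2 hg0
      linarith
    filter_upwards [h1.eventually (lt_mem_nhds h2)] with z hz
    exact hz.le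
  apply hp
  refine ⟨n, C * (1 + 1 / m), ?_⟩
  have e2 : ∀ᶠ z in 𝓝[≠] c, z ∈ W := Filter.Eventually.filter_mono nhdsWithin_le_nhds (hW.mem_nhds hcW)
  have e3 : ∀ᶠ z in 𝓝[≠] c, z ∈ ball c 1 :=
    Filter.Eventually.filter_mono nhdsWithin_le_nhds (ball_mem_nhds c one_pos)
  have e4 : ∀ᶠ z in 𝓝[≠] c, m ≤ ‖g z‖ := hgm.filter_mono nhdsWithin_le_nhds
  have e5 : ∀ᶠ z in 𝓝[≠] c, Φ z = (z - c) ^ n • g z := hev.filter_mono nhdsWithin_le_nhds
  filter_upwards [e2, e3, e4, e5, self_mem_nhdsWithin] with z h2 h3 h4 h5 h6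
  have hzc : z ≠ c := h6
  have hzs : z ∉ spectrum ℂ T := by
    intro hz
    rw [hΦ0 z hz] at h5
    have h7 : (z - c) ^ n • g z ≠ 0 := by
      refine smul_ne_zero (pow_ne_zero _ (sub_ne_zero.2 hzc)) ?_
      rw [← norm_pos_iff]
      linarith
    exact h7 h5.symm
  refine ⟨hzs, ?_⟩
  rw [hΦ1 z hzs] at h5
  set a : ℝ := ‖v₀ (resolvent T z u₀) - 1‖ with ha
  have ha0 : 0 < a := norm_pos_iff.2 (hA z h2 hzs)
  have h8 : m * ‖z - c‖ ^ n ≤ (a⁻¹) ^ 2 := by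
    have := congrArg norm h5
    rw [norm_pow, norm_inv, ← ha, norm_smul, norm_pow] at this
    rw [this, mul_comm]
    exact mul_le_mul_of_nonneg_left h4 (by positivity)
  have hr1 : ‖z - c‖ < 1 := by rwa [mem_ball, dist_eq_norm] at h3
  set s : ℝ := ‖z - c‖ ^ n with hs
  have hs0 : 0 ≤ s := by positivity
  have hs1 : s ≤ 1 := pow_le_one₀ (norm_nonneg _) hr1.le
  have h5' : m * s * a ^ 2 ≤ 1 := by
    have := mul_le_mul_of_nonneg_right h8 (sq_nonneg a)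
    rw [inv_pow, inv_mul_cancel₀ (by positivity)] at this
    exact this
  have h6' : s * a ≤ 1 + 1 / m := by
    have h7 : (s * a) ^ 2 ≤ 1 / m := by
      rw [le_div_iff₀ hm]
      have : (s * a) ^ 2 * m = s * (m * s * a ^ 2) := by ring
      rw [this]
      calc s * (m * s * a ^ 2) ≤ 1 * 1 := mul_le_mul hs1 h5' (by positivity) zero_le_one
        _ = 1 := one_mul 1
    nlinarith [sq_nonneg (s * a - 1)]
  calc s * ‖resolvent T z‖ ≤ s * (C * a) := mul_le_mul_of_nonneg_left (hkey z h2 hzs) hs0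
    _ = C * (s * a) := by ring
    _ ≤ C * (1 + 1 / m) := mul_le_mul_of_nonneg_left h6' hC0.le

end Pool.Agent.J4.H89.RP
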