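import Pool.Agent.J4.H89.RP.Hyp

set_option autoImplicit false

open Metric Set Filter Topology

namespace Pool.Agent.J4.H89.RP

variable {X : Type} [NormedAddCommGroup X] [NormedSpace ℂ X]

theorem eig0 (T : X →L[ℂ] X) (u : X) (v : X →L[ℂ] ℂ) (z : ℂ)
    (hz : z ∈ roots T u v) :
    resolvent T z u ≠ 0 ∧ pert T u v (resolvent T z u) = z • resolvent T z u ∧
    (∀ x, pert T u v x = z • x → ∃ c : ℂ, x = c • resolvent T z u) ∧
    (∀ x, pert T u v (pert T u v x - z • x) = z • (pert T u v x - z • x) →
      pert T u v x = z • x) := by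
  have h3 : ∀ x, pert T u v x = z • x → x = v x • resolvent T z u := by
    intro x hx
    rw [Hyp.pert_apply] at hx
    have e1 : z • x - T x = v x • u := by
      rw [← hx]
      abel
    have := Hyp.inv_left T hz.1 x
    rw [e1, map_smul] at this
    exact this.symm
  refine ⟨?_, Hyp.pert_eig T u v hz, fun x hx => ⟨v x, h3 x hx⟩, ?_⟩
  · intro h0
    have := hz.2.1
    rw [h0, map_zero] at this
    exact zero_ne_one this
  · intro x hx
    have h4 := h3 _ hx
    set w : X := pert T u v x - z • x with hw
    have e1 : z • x - T x = v x • u - w := by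
      rw [hw, Hyp.pert_apply]
      abel
    have e2 := Hyp.inv_left T hz.1 x
    rw [e1, map_sub, map_smul, h4, map_smul] at e2
    have e3 := congrArg v e2
    simp only [map_sub, map_smul, smul_eq_mul, hz.2.1, mul_one] at e3
    have e4 : v w * v (resolvent T z (resolvent T z u)) = 0 := by
      linear_combination -e3
    have e5 : v w = 0 := (mul_eq_zero.1 e4).resolve_right hz.2.2
    rw [e5, zero_smul] at h4
    exact sub_eq_zero.1 h4

end Pool.Agent.J4.H89.RP
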