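import Pool.Agent.J4.H89.RP.Main2

set_option autoImplicit false

open Metric Set Filter Topology

namespace Pool.Agent.J4.H89.RP

variable {X : Type} [NormedAddCommGroup X] [NormedSpace ℂ X]

/-- the simple eigenvalues outside the spectrum of `T` -/
def newEig (T : X →L[ℂ] X) (u : X) (v : X →L[ℂ] ℂ) : Set ℂ :=
  {z | z ∉ spectrum ℂ T ∧ Simple (pert T u v) z}

/-- closed and hyperinvariant -/
def Hyper (A : X →L[ℂ] X) (V : Submodule ℂ X) : Prop :=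
  IsClosed (V : Set X) ∧ ∀ Q : X →L[ℂ] X, Q * A = A * Q → ∀ x ∈ V, Q x ∈ V

theorem infinite_of_acc (S : Set ℂ) (c : ℂ) (hc : c ∉ S)
    (h : ∀ ε : ℝ, 0 < ε → ∃ z ∈ S, ‖z - c‖ < ε) : S.Infinite := by
  intro hfin
  obtain ⟨z0, hz0, -⟩ := h 1 one_pos
  obtain ⟨z1, hz1, hmin⟩ := hfin.exists_minimalFor (fun z => ‖z - c‖) _ ⟨z0, hz0⟩
  have hpos : 0 < ‖z1 - c‖ := by
    rw [norm_pos_iff, sub_ne_zero]
    rintro rfl
    exact hc hz1
  obtain ⟨z2, hz2, hlt⟩ := h _ hpos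
  exact absurd (hmin hz2 hlt.le) (not_le.2 hlt)

/-- (1) -/
theorem part1 [CompleteSpace X] [Nontrivial X] (T : X →L[ℂ] X) :
    ∃ D : Set (X × (X →L[ℂ] ℂ)), IsOpen D ∧ Dense D ∧ ∀ p ∈ D, (newEig T p.1 p.2).Nonempty := by
  refine ⟨{p | (roots T p.1 p.2 ∩ univ).Nonempty}, roots_open T _ isOpen_univ, dense_univ T, ?_⟩
  rintro p ⟨z, hz, -⟩
  rw [roots_eq] at hz
  exact ⟨z, hz⟩

/-- (2) -/
theorem part2 [CompleteSpace X] [Nontrivial X] (T : X →L[ℂ] X) :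
    {p : X × (X →L[ℂ] ℂ) | ∀ c ∈ frontier (spectrum ℂ T), ¬ IsPole T c →
      ∀ ε : ℝ, 0 < ε → ∃ z ∈ newEig T p.1 p.2, ‖z - c‖ < ε} ∈ residual (X × (X →L[ℂ] ℂ)) := by
  have h := residual_acc (fun p : X × (X →L[ℂ] ℂ) => roots T p.1 p.2)
    {c | c ∈ frontier (spectrum ℂ T) ∧ ¬ IsPole T c} (fun W hW => roots_open T W hW) (by
      rintro W hW ⟨c, hcW, hc, hp⟩
      exact dense_at T W hW c hcW hc hp)
  filter_upwards [h] with p hp c hc hpc ε hε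
  obtain ⟨z, hz, hlt⟩ := hp c ⟨hc, hpc⟩ ε hε
  have hz' : z ∈ roots T p.1 p.2 := hz
  rw [roots_eq] at hz'
  exact ⟨z, hz', hlt⟩

/-- (3) -/
theorem part3 [CompleteSpace X] (T : X →L[ℂ] X) (v : X →L[ℂ] ℂ) :
    {u : X | ∀ c ∈ frontier (spectrum ℂ T), (∀ φ : X →L[ℂ] ℂ, (∀ x, φ (T x) = c * φ x) → φ = 0) →
      (¬ ∃ φ : X →L[ℂ] ℂ, ∀ x, φ (c • x - T x) = v x) →
      ∀ ε : ℝ, 0 < ε → ∃ z ∈ newEig T u v, ‖z - c‖ < ε} ∈ residual X := by
  have h := residual_acc (fun u : X => roots T u v)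
    {c | c ∈ frontier (spectrum ℂ T) ∧ (∀ φ : X →L[ℂ] ℂ, (∀ x, φ (T x) = c * φ x) → φ = 0) ∧
      (¬ ∃ φ : X →L[ℂ] ℂ, ∀ x, φ (c • x - T x) = v x)} (fun W hW => by
      have h1 := roots_open T W hW
      have h2 : Continuous fun u : X => ((u, v) : X × (X →L[ℂ] ℂ)) := by fun_prop
      exact h1.preimage h2) (by
      rintro W hW ⟨c, hcW, hc, h1, h2⟩
      exact dense_fixv T W hW c hcW hc h1 v h2)
  filter_upwards [h] with u hu c hc h1 h2 ε hε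
  obtain ⟨z, hz, hlt⟩ := hu c ⟨hc, h1, h2⟩ ε hε
  have hz' : z ∈ roots T u v := hz
  rw [roots_eq] at hz'
  exact ⟨z, hz', hlt⟩

/-- (4) -/
theorem part4 [CompleteSpace X] (hrefl : Function.Surjective (NormedSpace.inclusionInDoubleDual ℂ X))
    (T : X →L[ℂ] X) (u : X) :
    {v : X →L[ℂ] ℂ | ∀ c ∈ frontier (spectrum ℂ T), (∀ x : X, T x = c • x → x = 0) →
      (¬ ∃ x : X, c • x - T x = u) →
      ∀ ε : ℝ, 0 < ε → ∃ z ∈ newEig T u v, ‖z - c‖ < ε} ∈ residual (X →L[ℂ] ℂ) := by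
  have h := residual_acc (fun v : X →L[ℂ] ℂ => roots T u v)
    {c | c ∈ frontier (spectrum ℂ T) ∧ (∀ x : X, T x = c • x → x = 0) ∧
      (¬ ∃ x : X, c • x - T x = u)} (fun W hW => by
      have h1 := roots_open T W hW
      have h2 : Continuous fun v : X →L[ℂ] ℂ => ((u, v) : X × (X →L[ℂ] ℂ)) := by fun_prop
      exact h1.preimage h2) (by
      rintro W hW ⟨c, hcW, hc, h1, h2⟩
      exact dense_fixu hrefl T W hW c hcW hc h1 u h2)
  filter_upwards [h] with v hv c hc h1 h2 ε hε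
  obtain ⟨z, hz, hlt⟩ := hv c ⟨hc, h1, h2⟩ ε hε
  have hz' : z ∈ roots T u v := hz
  rw [roots_eq] at hz'
  exact ⟨z, hz', hlt⟩

/-- (5) the hyperinvariant subspaces -/
theorem part5 [CompleteSpace X] (hX : ¬ FiniteDimensional ℂ X) (T : X →L[ℂ] X) (u : X)
    (v : X →L[ℂ] ℂ) :
    ∃ V : Set ℂ → Submodule ℂ X,
      (∀ M ⊆ newEig T u v, Hyper (pert T u v) (V M)) ∧
      (∀ M ⊆ newEig T u v, ∀ N ⊆ newEig T u v, (V M ≤ V N ↔ M ⊆ N)) ∧
      (∀ M ⊆ newEig T u v, (M.Nonempty → V M ≠ ⊥) ∧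
        ((M.Finite ∨ M ≠ newEig T u v) → V M ≠ ⊤)) ∧
      ∀ M ⊆ newEig T u v, M.Infinite → (newEig T u v \ M).Infinite →
        ¬ FiniteDimensional ℂ (V M) ∧ ¬ FiniteDimensional ℂ (X ⧸ V M) := by
  have he : newEig T u v = roots T u v := (roots_eq T u v).symm
  rw [he]
  obtain ⟨h1, h2, h3, h4⟩ := hyp T u v
  refine ⟨spanOf T u, fun M hM => ⟨Submodule.isClosed_topologicalClosure _, h1 M hM⟩, h2,
    fun M hM => ⟨?_, ?_⟩, fun M hM h5 h6 => ⟨h3 M hM h5, h4 M hM h6⟩⟩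
  · rintro ⟨z, hz⟩ h0
    have h5 : resolvent T z u ∈ spanOf T u M :=
      Submodule.le_topologicalClosure _ (Submodule.subset_span ⟨z, hz, rfl⟩)
    rw [h0, Submodule.mem_bot] at h5
    exact (eig0 T u v z (hM hz)).1 h5
  · rintro (hfin | hne) h0
    · apply hX
      have hfd : FiniteDimensional ℂ (Submodule.span ℂ ((fun z => resolvent T z u) '' M)) :=
        FiniteDimensional.span_of_finite ℂ (hfin.image _)
      have h5 : spanOf T u M = Submodule.span ℂ ((fun z => resolvent T z u) '' M) :=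
        (Submodule.closed_of_finiteDimensional _).submodule_topologicalClosure_eq
      rw [← h5, h0] at hfd
      exact Module.Finite.equiv Submodule.topEquiv
    · apply hne
      refine Subset.antisymm hM ?_
      refine (h2 _ subset_rfl M hM).1 ?_
      rw [h0]
      exact le_top

end Pool.Agent.J4.H89.RP
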