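import Pool.Agent.J4.H89.RP.Final2
import Pool.Agent.J4.H89.RP.Conv

set_option autoImplicit false

open Metric Set Filter Topology

namespace Pool.Agent.J4.H89.RP

variable {X : Type} [NormedAddCommGroup X] [NormedSpace ℂ X]

/-- `c` is a limit point of `S` -/
def LimitPoint (S : Set ℂ) (c : ℂ) : Prop := ∀ ε : ℝ, 0 < ε → ∃ z ∈ S, z ≠ c ∧ ‖z - c‖ < ε

theorem limitPoint_of (T : X →L[ℂ] X) (u : X) (v : X →L[ℂ] ℂ) (c : ℂ) (hc : c ∈ spectrum ℂ T)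
    (h : ∀ ε : ℝ, 0 < ε → ∃ z ∈ newEig T u v, ‖z - c‖ < ε) : LimitPoint (newEig T u v) c := by
  intro ε hε
  obtain ⟨z, hz, hlt⟩ := h ε hε
  refine ⟨z, hz, ?_, hlt⟩
  rintro rfl
  exact hz.1 hc

theorem final3 [CompleteSpace X] (hX : ¬ FiniteDimensional ℂ X) (T : X →L[ℂ] X) :
    (∃ D : Set (X × (X →L[ℂ] ℂ)), IsOpen D ∧ Dense D ∧ ∀ p ∈ D, (newEig T p.1 p.2).Nonempty) ∧
    (∃ D ∈ residual (X × (X →L[ℂ] ℂ)), Dense D ∧ ∀ p ∈ D, ∀ c ∈ frontier (spectrum ℂ T),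
      (LimitPoint (newEig T p.1 p.2) c ↔ ¬ IsPole T c)) ∧
    (¬ Algebraic T → ∃ c ∈ frontier (spectrum ℂ T), ¬ IsPole T c) ∧
    (∀ v : X →L[ℂ] ℂ, ∃ D ∈ residual X, Dense D ∧ ∀ u ∈ D, ∀ c ∈ frontier (spectrum ℂ T),
      (∀ φ : X →L[ℂ] ℂ, (∀ x, φ (T x) = c * φ x) → φ = 0) →
      (¬ ∃ φ : X →L[ℂ] ℂ, ∀ x, φ (c • x - T x) = v x) → LimitPoint (newEig T u v) c) ∧
    (Function.Surjective (NormedSpace.inclusionInDoubleDual ℂ X) →
      ∀ u : X, ∃ D ∈ residual (X →L[ℂ] ℂ), Dense D ∧ ∀ v ∈ D, ∀ c ∈ frontier (spectrum ℂ T),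
      (∀ x : X, T x = c • x → x = 0) → (¬ ∃ x : X, c • x - T x = u) →
      LimitPoint (newEig T u v) c) ∧
    (∀ (u : X) (v : X →L[ℂ] ℂ), ∃ V : Set ℂ → Submodule ℂ X,
      (∀ M ⊆ newEig T u v, Hyper (pert T u v) (V M)) ∧
      (∀ M ⊆ newEig T u v, ∀ N ⊆ newEig T u v, (V M ≤ V N ↔ M ⊆ N)) ∧
      (∀ M ⊆ newEig T u v, (M.Nonempty → V M ≠ ⊥) ∧
        ((M.Finite ∨ M ≠ newEig T u v) → V M ≠ ⊤)) ∧
      ∀ M ⊆ newEig T u v, M.Infinite → (newEig T u v \ M).Infinite →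
        ¬ FiniteDimensional ℂ (V M) ∧ ¬ FiniteDimensional ℂ (X ⧸ V M)) := by
  have hnt : Nontrivial X := by
    by_contra h
    rw [not_nontrivial_iff_subsingleton] at h
    exact hX inferInstance
  have hcl : IsClosed (spectrum ℂ T) := spectrum.isClosed T
  refine ⟨part1 T, ⟨_, part2 T, dense_of_mem_residual (part2 T), fun p hp c hc => ⟨?_, ?_⟩⟩,
    exists_not_pole T, fun v => ⟨_, part3 T v, dense_of_mem_residual (part3 T v), ?_⟩,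
    fun hr u => ⟨_, part4 hr T u, dense_of_mem_residual (part4 hr T u), ?_⟩, part5 hX T⟩
  · intro hl hpole
    obtain ⟨ε, hε, h1⟩ := pole_no_acc T c hpole p.1 p.2
    obtain ⟨z, hz, hzc, hlt⟩ := hl ε hε
    have hz' : z ∈ roots T p.1 p.2 := by
      rw [roots_eq]
      exact hz
    exact absurd (h1 z hz' hzc) (not_le.2 hlt)
  · intro hpole
    exact limitPoint_of T _ _ c (hcl.frontier_subset hc) (hp c hc hpole)
  · intro u hu c hc h1 h2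
    exact limitPoint_of T _ _ c (hcl.frontier_subset hc) (hu c hc h1 h2)
  · intro v hv c hc h1 h2
    exact limitPoint_of T _ _ c (hcl.frontier_subset hc) (hv c hc h1 h2)

end Pool.Agent.J4.H89.RP
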