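import Mathlib
import Pool.Agent.J4.H89.RP.Defs

/-! # Project RP, piece OPEN (helper45) -/

set_option autoImplicit false

open Metric Set Filter Topology
open scoped Polynomial

namespace Pool.Agent.J4.H89.RP

variable {X : Type} [NormedAddCommGroup X] [NormedSpace ℂ X]

namespace Open

/-- the function whose zeros are the roots -/
noncomputable def F (T : X →L[ℂ] X) (q : (X × (X →L[ℂ] ℂ)) × ℂ) : ℂ :=
  q.1.2 (resolvent T q.2 q.1.1) - 1

variable [CompleteSpace X]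

theorem contDiffAt_resolvent (T : X →L[ℂ] X) {z : ℂ} (hz : z ∉ spectrum ℂ T) :
    ContDiffAt ℂ 1 (fun w : ℂ => resolvent T w) z := by
  have hu : IsUnit (algebraMap ℂ (X →L[ℂ] X) z - T) := by
    by_contra h
    exact hz h
  obtain ⟨a, ha⟩ := hu
  have h1 : ContDiffAt ℂ 1 (Ring.inverse : (X →L[ℂ] X) → (X →L[ℂ] X)) (a : X →L[ℂ] X) :=
    contDiffAt_ringInverse ℂ a
  have h2 : ContDiffAt ℂ 1 (fun w : ℂ => algebraMap ℂ (X →L[ℂ] X) w - T) z := by
    refine ContDiffAt.sub ?_ contDiffAt_const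
    have : (algebraMap ℂ (X →L[ℂ] X) : ℂ → (X →L[ℂ] X)) = fun w : ℂ => w • (1 : X →L[ℂ] X) :=
      funext fun w => Algebra.algebraMap_eq_smul_one w
    rw [this]
    exact contDiffAt_id.smul contDiffAt_const
  rw [ha] at h1
  exact h1.comp z h2

theorem contDiffAt_F (T : X →L[ℂ] X) (p : X × (X →L[ℂ] ℂ)) {z : ℂ} (hz : z ∉ spectrum ℂ T) :
    ContDiffAt ℂ 1 (F T) (p, z) := by
  have h1 : ContDiffAt ℂ 1 (fun q : (X × (X →L[ℂ] ℂ)) × ℂ => resolvent T q.2) (p, z) :=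
    ContDiffAt.comp (g := fun w : ℂ => resolvent T w) (p, z) (contDiffAt_resolvent T hz)
      contDiffAt_snd
  have h2 : ContDiffAt ℂ 1 (fun q : (X × (X →L[ℂ] ℂ)) × ℂ => q.1.1) (p, z) :=
    contDiffAt_fst.fst
  have h3 : ContDiffAt ℂ 1 (fun q : (X × (X →L[ℂ] ℂ)) × ℂ => q.1.2) (p, z) :=
    contDiffAt_fst.snd
  exact (h3.clm_apply (h1.clm_apply h2)).sub contDiffAt_const

/-- the partial derivative in `z` -/
theorem partial_z (T : X →L[ℂ] X) (p : X × (X →L[ℂ] ℂ)) {z : ℂ} (hz : z ∉ spectrum ℂ T)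
    {D : (X × (X →L[ℂ] ℂ)) × ℂ →L[ℂ] ℂ} (hD : HasFDerivAt (F T) D (p, z)) :
    D (0, 1) = -(p.2 (resolvent T z (resolvent T z p.1))) := by
  have hu : z ∈ resolventSet ℂ T := by
    by_contra h
    exact hz h
  have h1 : HasDerivAt (fun w : ℂ => resolvent T w) (-resolvent T z ^ 2) z :=
    spectrum.hasDerivAt_resolvent_const_left hu
  have h2 : HasDerivAt (fun w : ℂ => p.2 (resolvent T w p.1) - 1)
      (p.2 ((-resolvent T z ^ 2) p.1)) z := by
    have h3 : HasDerivAt (fun w : ℂ => resolvent T w p.1) ((-resolvent T z ^ 2) p.1) z := by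
      have := h1.clm_apply (hasDerivAt_const z p.1)
      simpa using this
    exact (p.2.hasFDerivAt.comp_hasDerivAt z h3).sub_const 1
  have h4 : HasDerivAt (fun w : ℂ => F T (p, w)) (D (0, 1)) z := by
    have h5 : HasDerivAt (fun w : ℂ => ((p, w) : (X × (X →L[ℂ] ℂ)) × ℂ)) ((0 : X × (X →L[ℂ] ℂ)), (1 : ℂ)) z :=
      (hasDerivAt_const z p).prodMk (hasDerivAt_id z)
    exact hD.comp_hasDerivAt z h5
  have h6 := h4.unique h2
  rw [h6, sq]
  simp

/-- the derivative of `(p, z) ↦ (p, F (p, z))` is invertible -/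
theorem exists_equiv {Y : Type} [NormedAddCommGroup Y] [NormedSpace ℂ Y] (D : Y × ℂ →L[ℂ] ℂ)
    (hD : D (0, 1) ≠ 0) :
    ∃ e : (Y × ℂ) ≃L[ℂ] (Y × ℂ), (e : (Y × ℂ) →L[ℂ] (Y × ℂ)) =
      (ContinuousLinearMap.fst ℂ Y ℂ).prod D := by
  have hd : ∀ (y : Y) (w : ℂ), D (y, w) = D (y, 0) + w * D (0, 1) := by
    intro y w
    have : ((y, w) : Y × ℂ) = (y, 0) + w • ((0 : Y), (1 : ℂ)) := by
      ext <;> simp
    rw [this, map_add, map_smul, smul_eq_mul]
  set g : (Y × ℂ) →L[ℂ] (Y × ℂ) := (ContinuousLinearMap.fst ℂ Y ℂ).prod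
    ((D (0, 1))⁻¹ • (ContinuousLinearMap.snd ℂ Y ℂ -
      D.comp ((ContinuousLinearMap.fst ℂ Y ℂ).prod 0))) with hg
  refine ⟨ContinuousLinearEquiv.equivOfInverse ((ContinuousLinearMap.fst ℂ Y ℂ).prod D) g ?_ ?_, ?_⟩
  · rintro ⟨y, w⟩
    ext
    · simp [hg]
    · simp only [hg, ContinuousLinearMap.prod_apply, ContinuousLinearMap.coe_fst',
        smul_apply, sub_apply, ContinuousLinearMap.coe_snd',
        ContinuousLinearMap.comp_apply, zero_apply, smul_eq_mul]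
      rw [hd y w]
      field_simp
      ring
  · rintro ⟨y, w⟩
    ext
    · simp [hg]
    · simp only [hg, ContinuousLinearMap.prod_apply, ContinuousLinearMap.coe_fst',
        smul_apply, sub_apply, ContinuousLinearMap.coe_snd',
        ContinuousLinearMap.comp_apply, zero_apply, smul_eq_mul]
      rw [hd y]
      field_simp
      ring
  · ext <;> rfl

end Open

open Open in
/-- OPEN: simple roots persist (implicit functions: `(p, z) ↦ (p, v (R(z) u))` is a local homeomorphism at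
a simple root). -/
theorem roots_open [CompleteSpace X] (T : X →L[ℂ] X) (W : Set ℂ) (hW : IsOpen W) :
    IsOpen {p : X × (X →L[ℂ] ℂ) | (roots T p.1 p.2 ∩ W).Nonempty} := by
  rw [isOpen_iff_mem_nhds]
  rintro p ⟨z, ⟨hz, h1, h2⟩, hzW⟩
  have hC := contDiffAt_F T p hz
  have hS : HasStrictFDerivAt (F T) (fderiv ℂ (F T) (p, z)) (p, z) :=
    hC.hasStrictFDerivAt (by norm_num)
  have hc : fderiv ℂ (F T) (p, z) (0, 1) ≠ 0 := by
    rw [partial_z T p hz hS.hasFDerivAt]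
    exact neg_ne_zero.2 h2
  obtain ⟨e, he⟩ := exists_equiv _ hc
  have hΨ : HasStrictFDerivAt (fun q : (X × (X →L[ℂ] ℂ)) × ℂ => (q.1, F T q))
      (e : ((X × (X →L[ℂ] ℂ)) × ℂ) →L[ℂ] ((X × (X →L[ℂ] ℂ)) × ℂ)) (p, z) := by
    rw [he]
    exact hasStrictFDerivAt_fst.prodMk hS
  have hmap := hΨ.map_nhds_eq_of_equiv
  -- the neighbourhood
  set N : Set ((X × (X →L[ℂ] ℂ)) × ℂ) := {q | q.2 ∈ W ∧ q.2 ∉ spectrum ℂ T ∧
    q.1.2 (resolvent T q.2 (resolvent T q.2 q.1.1)) ≠ 0} with hN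
  have hNn : N ∈ 𝓝 (p, z) := by
    have e1 : ∀ᶠ q : (X × (X →L[ℂ] ℂ)) × ℂ in 𝓝 (p, z), q.2 ∈ W :=
      (continuous_snd.tendsto (p, z)).eventually (hW.mem_nhds hzW)
    have e2 : ∀ᶠ q : (X × (X →L[ℂ] ℂ)) × ℂ in 𝓝 (p, z), q.2 ∉ spectrum ℂ T :=
      (continuous_snd.tendsto (p, z)).eventually
        ((spectrum.isClosed (𝕜 := ℂ) T).isOpen_compl.mem_nhds hz)
    have e3 : ∀ᶠ q : (X × (X →L[ℂ] ℂ)) × ℂ in 𝓝 (p, z),
        q.1.2 (resolvent T q.2 (resolvent T q.2 q.1.1)) ≠ 0 := by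
      have hcont : ContinuousAt (fun q : (X × (X →L[ℂ] ℂ)) × ℂ =>
          q.1.2 (resolvent T q.2 (resolvent T q.2 q.1.1))) (p, z) := by
        have k1 : ContinuousAt (fun q : (X × (X →L[ℂ] ℂ)) × ℂ => resolvent T q.2) (p, z) :=
          ContinuousAt.comp (g := fun w : ℂ => resolvent T w)
            (contDiffAt_resolvent T hz).continuousAt continuous_snd.continuousAt
        have k2 : ContinuousAt (fun q : (X × (X →L[ℂ] ℂ)) × ℂ => q.1.1) (p, z) := by fun_prop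
        have k3 : ContinuousAt (fun q : (X × (X →L[ℂ] ℂ)) × ℂ => q.1.2) (p, z) := by fun_prop
        exact k3.clm_apply (k1.clm_apply (k1.clm_apply k2))
      exact hcont.eventually_ne h2
    filter_upwards [e1, e2, e3] with q a b c
    exact ⟨a, b, c⟩
  have hF0 : F T (p, z) = 0 := by
    unfold F
    rw [h1, sub_self]
  have himg : (fun q : (X × (X →L[ℂ] ℂ)) × ℂ => (q.1, F T q)) '' N ∈ 𝓝 (p, (0 : ℂ)) := by
    have := image_mem_map (m := fun q : (X × (X →L[ℂ] ℂ)) × ℂ => (q.1, F T q)) hNn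
    rw [hmap] at this
    rwa [hF0] at this
  have hpre : ∀ᶠ p' : X × (X →L[ℂ] ℂ) in 𝓝 p,
      (p', (0 : ℂ)) ∈ (fun q : (X × (X →L[ℂ] ℂ)) × ℂ => (q.1, F T q)) '' N := by
    have hc : Continuous fun p' : X × (X →L[ℂ] ℂ) => (p', (0 : ℂ)) := by fun_prop
    exact (hc.tendsto p).eventually himg
  filter_upwards [hpre] with p' hp'
  obtain ⟨q, ⟨q1, q2, q3⟩, hq⟩ := hp'
  have e1 : q.1 = p' := congrArg Prod.fst hq
  have e2 : F T q = 0 := congrArg Prod.snd hq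
  subst e1
  refine ⟨q.2, ⟨q2, ?_, q3⟩, q1⟩
  unfold F at e2
  exact sub_eq_zero.1 e2

end Pool.Agent.J4.H89.RP
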