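import Pool.Agent.J4.H89.RP.Dense2
import Pool.Agent.J4.H89.RP.Alg

set_option autoImplicit false

open Metric Set Filter Topology

namespace Pool.Agent.J4.H89.RP

variable {X : Type} [NormedAddCommGroup X] [NormedSpace ℂ X]

/-- the spectrum of an operator that is not algebraic has a boundary point which is not a pole -/
theorem exists_not_pole [CompleteSpace X] [Nontrivial X] (T : X →L[ℂ] X) (h : ¬ Algebraic T) :
    ∃ c ∈ frontier (spectrum ℂ T), ¬ IsPole T c := by
  by_contra hcon
  push Not at hcon
  have hσc : IsClosed (spectrum ℂ T) := spectrum.isClosed T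
  have hiso : ∀ c ∈ frontier (spectrum ℂ T), ∀ᶠ z in 𝓝[≠] c, z ∉ spectrum ℂ T := by
    intro c hc
    obtain ⟨n, C, hev⟩ := hcon c hc
    exact hev.mono fun z hz => hz.1
  have hint : interior (spectrum ℂ T) = ∅ := by
    have hcl : IsClosed (interior (spectrum ℂ T)) := by
      refine isClosed_of_closure_subset (fun c hc => ?_)
      by_contra hci
      have hcs : c ∈ spectrum ℂ T := by
        have h1 := closure_mono interior_subset hc
        rwa [hσc.closure_eq] at h1
      have hfr : c ∈ frontier (spectrum ℂ T) := by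
        rw [hσc.frontier_eq]
        exact ⟨hcs, hci⟩
      have h2 := hiso c hfr
      rw [mem_closure_iff_frequently] at hc
      have h3 : ∃ᶠ z in 𝓝[≠] c, z ∈ spectrum ℂ T := by
        rw [frequently_nhdsWithin_iff]
        refine hc.mono (fun z hz => ⟨interior_subset hz, ?_⟩)
        rintro rfl
        exact hci hz
      exact h3 h2
    rcases isClopen_iff.1 ⟨hcl, isOpen_interior⟩ with h1 | h1
    · exact h1
    · exfalso
      have h2 : spectrum ℂ T = univ := univ_subset_iff.1 (h1 ▸ interior_subset)
      have h3 := spectrum.isCompact (𝕜 := ℂ) T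
      rw [h2] at h3
      exact noncompact_univ ℂ h3
  have hfr : frontier (spectrum ℂ T) = spectrum ℂ T := by
    rw [hσc.frontier_eq, hint, diff_empty]
  have hfin : (spectrum ℂ T).Finite := by
    by_contra hinf
    obtain ⟨c, hc, hacc⟩ := Set.Infinite.exists_accPt_of_subset_isCompact hinf
      (spectrum.isCompact T) subset_rfl
    rw [accPt_iff_frequently_nhdsNE] at hacc
    exact hacc (hiso c (hfr.symm ▸ hc))
  apply h
  refine algebraic_of_growth T hfin (fun c hc => ?_)
  obtain ⟨n, C, hev⟩ := hcon c (hfr.symm ▸ hc)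
  refine ⟨n, C, ?_⟩
  have hle : 𝓝[(spectrum ℂ T)ᶜ] c ≤ 𝓝[≠] c := by
    refine nhdsWithin_mono c (fun z hz => ?_)
    rintro rfl
    exact hz hc
  exact (hev.mono fun z hz => hz.2).filter_mono hle

end Pool.Agent.J4.H89.RP
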