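import Mathlib
import Pool.Agent.J4.H89.RP.Defs
import Pool.Agent.J4.H89.RP.Simple

/-!
# Typical rank one perturbations of arbitrary operators: one vector fixed
-/

set_option autoImplicit false

open Metric Set Filter Topology

namespace Pool.Agent.J4.H89.RP

variable {X : Type} [NormedAddCommGroup X] [NormedSpace ℂ X]

namespace Fixu

theorem inv_left (T : X →L[ℂ] X) {z : ℂ} (hz : z ∉ spectrum ℂ T) (x : X) :
    resolvent T z (z • x - T x) = x := by
  have hu : IsUnit (algebraMap ℂ (X →L[ℂ] X) z - T) := spectrum.notMem_iff.1 hz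
  have h := congrArg (fun A : X →L[ℂ] X => A x) (Ring.inverse_mul_cancel _ hu)
  simpa [resolvent, Algebra.algebraMap_eq_smul_one] using h

theorem inv_right (T : X →L[ℂ] X) {z : ℂ} (hz : z ∉ spectrum ℂ T) (x : X) :
    z • resolvent T z x - T (resolvent T z x) = x := by
  have hu : IsUnit (algebraMap ℂ (X →L[ℂ] X) z - T) := spectrum.notMem_iff.1 hz
  have h := congrArg (fun A : X →L[ℂ] X => A x) (Ring.mul_inverse_cancel _ hu)
  simpa [resolvent, Algebra.algebraMap_eq_smul_one] using h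

theorem inj (T : X →L[ℂ] X) {z : ℂ} (hz : z ∉ spectrum ℂ T) :
    Function.Injective ⇑(resolvent T z : X →L[ℂ] X) := by
  intro x y h
  have h1 := inv_right T hz x
  have h2 := inv_right T hz y
  rw [h] at h1
  exact h1.symm.trans h2

/-- no functional in a ball takes the value one at `x` -/
theorem norm_lt {v₀ : X →L[ℂ] ℂ} {δ : ℝ} (hδ : 0 < δ) {x : X}
    (h : ∀ v : X →L[ℂ] ℂ, ‖v - v₀‖ ≤ δ → v x ≠ 1) : δ * ‖x‖ < ‖v₀ x - 1‖ := by
  by_contra hcon
  push Not at hcon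
  obtain ⟨b, hb1, hb2⟩ := exists_dual_vector'' ℂ x
  rcases eq_or_ne x 0 with rfl | hx
  · simp at hcon
    linarith
  have hx' : 0 < ‖x‖ := norm_pos_iff.2 hx
  set t : ℂ := -(v₀ x - 1) / ‖x‖ with ht
  have htn : ‖t‖ ≤ δ := by
    rw [ht, norm_div, norm_neg, Complex.norm_real, norm_norm, div_le_iff₀ hx']
    exact hcon
  refine h (v₀ + t • b) ?_ ?_
  · rw [add_sub_cancel_left, norm_smul]
    calc ‖t‖ * ‖b‖ ≤ δ * 1 := by gcongr
      _ = δ := mul_one δ
  · have hne : (Complex.ofReal ‖x‖) ≠ 0 := by exact_mod_cast hx'.ne'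
    change v₀ x + t * b x = 1
    have h3 : b x = Complex.ofReal ‖x‖ := hb2
    have h4 : t * Complex.ofReal ‖x‖ = -(v₀ x - 1) := by
      rw [ht]
      exact div_mul_cancel₀ _ hne
    rw [h3, h4]
    ring

end Fixu

open Fixu in
/-- FIXU: one vector `u`, typical `v`, on a reflexive space. -/
theorem dense_fixu [CompleteSpace X]
    (hrefl : Function.Surjective (NormedSpace.inclusionInDoubleDual ℂ X))
    (T : X →L[ℂ] X) (W : Set ℂ) (hW : IsOpen W)
    (c : ℂ) (hcW : c ∈ W) (hc : c ∈ frontier (spectrum ℂ T))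
    (hT : ∀ x : X, T x = c • x → x = 0)
    (u : X) (hu : ¬ ∃ x : X, c • x - T x = u) :
    Dense {v : X →L[ℂ] ℂ | (roots T u v ∩ W).Nonempty} := by
  by_contra hdense
  obtain ⟨v₀, hv₀⟩ : ∃ v₀, v₀ ∉ closure {v : X →L[ℂ] ℂ | (roots T u v ∩ W).Nonempty} := by
    by_contra hno
    push Not at hno
    exact hdense fun v => hno v
  rw [Metric.mem_closure_iff] at hv₀
  push Not at hv₀
  obtain ⟨ε, hε, hball⟩ := hv₀
  set δ : ℝ := ε / 3 with hδdef
  have hδ : 0 < δ := by positivity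
  -- no roots in the ball
  have hno : ∀ z ∈ W, z ∉ spectrum ℂ T → ∀ v : X →L[ℂ] ℂ, ‖v - v₀‖ ≤ δ →
      v (resolvent T z u) ≠ 1 := by
    intro z hzW hz v hv h1
    obtain ⟨v', h2, h3, h4⟩ := simple (resolvent T z) (inj T hz) u v h1 δ hδ
    have h5 := hball v' ⟨z, ⟨hz, h3, h4⟩, hzW⟩
    rw [dist_eq_norm] at h5
    have h6 : ‖v₀ - v'‖ ≤ ‖v - v₀‖ + ‖v' - v‖ := by
      have : v₀ - v' = -((v - v₀) + (v' - v)) := by abel
      rw [this, norm_neg]
      exact norm_add_le _ _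
    rw [hδdef] at h2 hv
    linarith
  set A : ℂ → ℂ := fun z => v₀ (resolvent T z u) - 1 with hA
  have hlt : ∀ z ∈ W, z ∉ spectrum ℂ T → δ * ‖resolvent T z u‖ < ‖A z‖ := fun z hzW hz =>
    norm_lt hδ (hno z hzW hz)
  have hA0 : ∀ z ∈ W, z ∉ spectrum ℂ T → A z ≠ 0 := fun z hzW hz h => by
    have h1 := hlt z hzW hz
    rw [h, norm_zero] at h1
    have : 0 ≤ δ * ‖resolvent T z u‖ := by positivity
    linarith
  set g : ℂ → ℂ := fun z => (A z)⁻¹ with hg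
  set y : ℂ → X := fun z => g z • resolvent T z u with hy
  have hyn : ∀ z ∈ W, z ∉ spectrum ℂ T → ‖y z‖ ≤ δ⁻¹ := by
    intro z hzW hz
    have h1 := hlt z hzW hz
    have h2 : 0 < ‖A z‖ := norm_pos_iff.2 (hA0 z hzW hz)
    simp only [hy, hg]
    rw [norm_smul, norm_inv, inv_mul_le_iff₀ h2, ← div_eq_mul_inv, le_div_iff₀ hδ, mul_comm]
    exact h1.le
  have hyT : ∀ z ∈ W, z ∉ spectrum ℂ T → z • y z - T (y z) = g z • u := by
    intro z hzW hz
    simp only [hy]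
    rw [map_smul, smul_comm, ← smul_sub, inv_right T hz]
  have hyv : ∀ z ∈ W, z ∉ spectrum ℂ T → v₀ (y z) = 1 + g z := by
    intro z hzW hz
    have h1 : v₀ (resolvent T z u) = A z + 1 := by simp [hA]
    simp only [hy, hg]
    rw [map_smul, smul_eq_mul, h1]
    field_simp [hA0 z hzW hz]
  have hu0 : u ≠ 0 := by
    rintro rfl
    exact hu ⟨0, by simp⟩
  have hup : 0 < ‖u‖ := norm_pos_iff.2 hu0
  have hgn : ∀ z ∈ W, z ∉ spectrum ℂ T → ‖g z‖ ≤ (‖z‖ + ‖T‖) * δ⁻¹ / ‖u‖ := by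
    intro z hzW hz
    rw [le_div_iff₀ hup, ← norm_smul, ← hyT z hzW hz]
    calc ‖z • y z - T (y z)‖ ≤ ‖z • y z‖ + ‖T (y z)‖ := norm_sub_le _ _
      _ ≤ ‖z‖ * ‖y z‖ + ‖T‖ * ‖y z‖ := by
          rw [norm_smul]
          gcongr
          exact T.le_opNorm _
      _ = (‖z‖ + ‖T‖) * ‖y z‖ := by ring
      _ ≤ (‖z‖ + ‖T‖) * δ⁻¹ := by
          gcongr
          exact hyn z hzW hz
  -- the ultrafilter
  have hcl : c ∈ closure (spectrum ℂ T)ᶜ := by
    rw [frontier_eq_closure_inter_closure] at hc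
    exact hc.2
  have hne : (𝓝[(spectrum ℂ T)ᶜ] c).NeBot := mem_closure_iff_nhdsWithin_neBot.1 hcl
  set U : Ultrafilter ℂ := Ultrafilter.of (𝓝[(spectrum ℂ T)ᶜ] c) with hU
  have hUle : (U : Filter ℂ) ≤ 𝓝[(spectrum ℂ T)ᶜ] c := Ultrafilter.of_le _
  have hUc : Tendsto (fun z : ℂ => z) U (𝓝 c) := hUle.trans nhdsWithin_le_nhds
  have hUev : ∀ᶠ z in (U : Filter ℂ), z ∈ W ∧ z ∉ spectrum ℂ T ∧ ‖z‖ ≤ ‖c‖ + 1 := by
    have h1 : ∀ᶠ z in (U : Filter ℂ), z ∈ W := hUc (hW.mem_nhds hcW)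
    have h2 : ∀ᶠ z in (U : Filter ℂ), z ∈ (spectrum ℂ T)ᶜ := hUle self_mem_nhdsWithin
    have h3 : ∀ᶠ z in (U : Filter ℂ), ‖z‖ < ‖c‖ + 1 := by
      have h4 : Tendsto (fun z : ℂ => ‖z‖) U (𝓝 ‖c‖) := hUc.norm
      exact h4.eventually (gt_mem_nhds (by linarith))
    filter_upwards [h1, h2, h3] with z a b d
    exact ⟨a, b, d.le⟩
  -- limits
  obtain ⟨g₀, hg₀⟩ : ∃ g₀, Tendsto g U (𝓝 g₀) := by
    have hK : IsCompact (closedBall (0 : ℂ) ((‖c‖ + 1 + ‖T‖) * δ⁻¹ / ‖u‖)) :=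
      ProperSpace.isCompact_closedBall _ _
    have h1 : (U.map g : Filter ℂ) ≤ 𝓟 (closedBall (0 : ℂ) ((‖c‖ + 1 + ‖T‖) * δ⁻¹ / ‖u‖)) := by
      rw [le_principal_iff]
      change ∀ᶠ z in (U : Filter ℂ), g z ∈ closedBall (0 : ℂ) ((‖c‖ + 1 + ‖T‖) * δ⁻¹ / ‖u‖)
      filter_upwards [hUev] with z hz
      rw [mem_closedBall_zero_iff]
      refine (hgn z hz.1 hz.2.1).trans ?_
      gcongr
      exact hz.2.2
    obtain ⟨g₀, -, h2⟩ := hK.ultrafilter_le_nhds (U.map g) h1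
    exact ⟨g₀, h2⟩
  obtain ⟨φ, hφ⟩ : ∃ φ : WeakDual ℂ (StrongDual ℂ X), Tendsto (fun z =>
      StrongDual.toWeakDual (NormedSpace.inclusionInDoubleDual ℂ X (y z))) U (𝓝 φ) := by
    have hK := WeakDual.isCompact_closedBall (𝕜 := ℂ) (E := StrongDual ℂ X) 0 δ⁻¹
    have h1 : (U.map (fun z =>
        StrongDual.toWeakDual (NormedSpace.inclusionInDoubleDual ℂ X (y z))) : Filter _) ≤
        𝓟 (WeakDual.toStrongDual ⁻¹' closedBall (0 : StrongDual ℂ (StrongDual ℂ X)) δ⁻¹) := by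
      rw [le_principal_iff]
      change ∀ᶠ z in (U : Filter ℂ), _
      filter_upwards [hUev] with z hz
      change NormedSpace.inclusionInDoubleDual ℂ X (y z) ∈ closedBall _ _
      have h5 : ‖NormedSpace.inclusionInDoubleDual ℂ X (y z)‖ ≤ δ⁻¹ :=
        (NormedSpace.double_dual_bound ℂ X (y z)).trans (hyn z hz.1 hz.2.1)
      exact (mem_closedBall_zero_iff (E := StrongDual ℂ (StrongDual ℂ X))).2 h5
    obtain ⟨φ, -, h2⟩ := hK.ultrafilter_le_nhds _ h1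
    exact ⟨φ, h2⟩
  obtain ⟨y₀, hy₀⟩ := hrefl (WeakDual.toStrongDual φ)
  have hlim : ∀ f : X →L[ℂ] ℂ, Tendsto (fun z => f (y z)) U (𝓝 (f y₀)) := by
    intro f
    have h1 := (WeakDual.eval_continuous (𝕜 := ℂ) (E := StrongDual ℂ X) f).continuousAt.tendsto.comp hφ
    have h2 : φ f = f y₀ := by
      have h3 : WeakDual.toStrongDual φ f = NormedSpace.inclusionInDoubleDual ℂ X y₀ f := by
        rw [hy₀]
      exact h3
    rw [← h2]
    exact h1
  have heq : c • y₀ - T y₀ = g₀ • u := by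
    rw [SeparatingDual.eq_iff_forall_dual_eq (R := ℂ)]
    intro f
    have h1 : Tendsto (fun z => z * f (y z) - (f.comp T) (y z)) U
        (𝓝 (c * f y₀ - (f.comp T) y₀)) := (hUc.mul (hlim f)).sub (hlim (f.comp T))
    have h2 : Tendsto (fun z => g z * f u) U (𝓝 (g₀ * f u)) := hg₀.mul_const _
    have h3 : (fun z => z * f (y z) - (f.comp T) (y z)) =ᶠ[(U : Filter ℂ)] fun z => g z * f u := by
      filter_upwards [hUev] with z hz
      have h4 := congrArg f (hyT z hz.1 hz.2.1)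
      simpa using h4
    have h4 := tendsto_nhds_unique (h1.congr' h3) h2
    simpa using h4
  have hv1 : v₀ y₀ = 1 + g₀ := by
    have h1 : Tendsto (fun z => 1 + g z) U (𝓝 (1 + g₀)) := hg₀.const_add 1
    have h2 : (fun z => v₀ (y z)) =ᶠ[(U : Filter ℂ)] fun z => 1 + g z := by
      filter_upwards [hUev] with z hz
      exact hyv z hz.1 hz.2.1
    exact tendsto_nhds_unique ((hlim v₀).congr' h2) h1
  rcases eq_or_ne g₀ 0 with h0 | h0
  · rw [h0, zero_smul, sub_eq_zero] at heq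
    have h1 := hT y₀ heq.symm
    rw [h1, map_zero, h0, add_zero] at hv1
    exact zero_ne_one hv1
  · refine hu ⟨g₀⁻¹ • y₀, ?_⟩
    rw [map_smul, smul_comm, ← smul_sub, heq, smul_smul, inv_mul_cancel₀ h0, one_smul]

end Pool.Agent.J4.H89.RP
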