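import Mathlib
import Pool.Agent.J4.H89.RP.Defs

set_option autoImplicit false

open Metric Set Filter Topology

namespace Pool.Agent.J4.H89.RP

variable {X : Type} [NormedAddCommGroup X] [NormedSpace ℂ X]

/-- a root of modulus greater than `δ` -/
theorem root_bound (A B : ℂ) (δ : ℝ) (hδ : 0 < δ) (h : ∀ s : ℂ, ‖s‖ ≤ δ → A + s * B ≠ 0) :
    δ * ‖B‖ ≤ ‖A‖ := by
  by_contra hcon
  push Not at hcon
  have hB : B ≠ 0 := by
    rintro rfl
    simp only [norm_zero, mul_zero] at hcon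
    exact absurd hcon (not_lt.2 (norm_nonneg _))
  have hB0 : 0 < ‖B‖ := norm_pos_iff.2 hB
  refine h (-A / B) ?_ ?_
  · rw [norm_div, norm_neg, div_le_iff₀ hB0]
    exact hcon.le
  · field_simp
    ring

theorem key (S : X →L[ℂ] X) (u₀ : X) (v₀ : X →L[ℂ] ℂ) (δ : ℝ) (hδ : 0 < δ)
    (h : ∀ u v, ‖u - u₀‖ ≤ δ → ‖v - v₀‖ ≤ δ → v (S u) ≠ 1) :
    ‖S‖ ≤ 3 / δ ^ 2 * ‖v₀ (S u₀) - 1‖ := by
  set A : ℂ := v₀ (S u₀) - 1 with hA
  -- the bound for pairs of unit vectors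
  have main : ∀ (a : X) (b : X →L[ℂ] ℂ), ‖a‖ ≤ 1 → ‖b‖ ≤ 1 → ‖b (S a)‖ ≤ 3 / δ ^ 2 * ‖A‖ := by
    intro a b ha hb
    have hne : ∀ s t : ℂ, ‖s‖ ≤ δ → ‖t‖ ≤ δ →
        A + s * v₀ (S a) + t * b (S u₀) + s * t * b (S a) ≠ 0 := by
      intro s t hs ht h0
      refine h (u₀ + s • a) (v₀ + t • b) ?_ ?_ ?_
      · rw [add_sub_cancel_left, norm_smul]
        calc ‖s‖ * ‖a‖ ≤ δ * 1 := mul_le_mul hs ha (norm_nonneg _) hδ.le
          _ = δ := mul_one _
      · rw [add_sub_cancel_left, norm_smul]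
        calc ‖t‖ * ‖b‖ ≤ δ * 1 := mul_le_mul ht hb (norm_nonneg _) hδ.le
          _ = δ := mul_one _
      · simp only [map_add, map_smul, add_apply,
          smul_apply, smul_eq_mul]
        rw [hA] at h0
        linear_combination h0
    have h1 : δ * ‖v₀ (S a)‖ ≤ ‖A‖ := by
      refine root_bound A _ δ hδ (fun s hs => ?_)
      have := hne s 0 hs (by simp [hδ.le])
      simpa using this
    have h2 : δ * ‖b (S u₀)‖ ≤ ‖A‖ := by
      refine root_bound A _ δ hδ (fun t ht => ?_)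
      have := hne 0 t (by simp [hδ.le]) ht
      simpa using this
    have h3 : δ * ‖v₀ (S a) + δ * b (S a)‖ ≤ ‖A + δ * b (S u₀)‖ := by
      refine root_bound _ _ δ hδ (fun s hs => ?_)
      have := hne s (δ : ℂ) hs (by simp [abs_of_pos hδ])
      intro h0
      apply this
      linear_combination h0
    have h4 : ‖A + δ * b (S u₀)‖ ≤ 2 * ‖A‖ := by
      calc ‖A + δ * b (S u₀)‖ ≤ ‖A‖ + ‖(δ : ℂ) * b (S u₀)‖ := norm_add_le _ _
        _ = ‖A‖ + δ * ‖b (S u₀)‖ := by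
            rw [norm_mul, Complex.norm_real, Real.norm_of_nonneg hδ.le]
        _ ≤ 2 * ‖A‖ := by linarith
    have h5 : δ * ‖b (S a)‖ ≤ ‖v₀ (S a) + δ * b (S a)‖ + ‖v₀ (S a)‖ := by
      calc δ * ‖b (S a)‖ = ‖(δ : ℂ) * b (S a)‖ := by
            rw [norm_mul, Complex.norm_real, Real.norm_of_nonneg hδ.le]
        _ = ‖(v₀ (S a) + δ * b (S a)) - v₀ (S a)‖ := by congr 1; ring
        _ ≤ _ := norm_sub_le _ _
    have h6 : δ ^ 2 * ‖b (S a)‖ ≤ 3 * ‖A‖ := by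
      have := mul_le_mul_of_nonneg_left h5 hδ.le
      nlinarith
    rw [div_mul_eq_mul_div, le_div_iff₀ (by positivity)]
    linarith
  refine ContinuousLinearMap.opNorm_le_bound _ (by positivity) (fun x => ?_)
  by_cases hx : x = 0
  · subst hx
    simp
  have hx0 : 0 < ‖x‖ := norm_pos_iff.2 hx
  by_cases hSx : S x = 0
  · rw [hSx, norm_zero]
    positivity
  obtain ⟨b, hb1, hb2⟩ := exists_dual_vector ℂ (S x) (norm_ne_zero_iff.2 hSx)
  have h7 := main (((‖x‖⁻¹ : ℝ) : ℂ) • x) b (by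
    rw [norm_smul, Complex.norm_real, norm_inv, norm_norm, inv_mul_cancel₀ hx0.ne']) hb1.le
  rw [map_smul, map_smul, hb2, norm_smul, Complex.norm_real, norm_inv, norm_norm] at h7
  rw [inv_mul_le_iff₀ hx0] at h7
  simpa [mul_comm] using h7

end Pool.Agent.J4.H89.RP
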