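import Mathlib
import Pool.Agent.J4.H89.RP.Defs
import Pool.Agent.J4.H89.RP.Key

/-! # Project RP, piece FIXV (helper45) -/

set_option autoImplicit false

open Metric Set Filter Topology

namespace Pool.Agent.J4.H89.RP

variable {X : Type} [NormedAddCommGroup X] [NormedSpace ℂ X]

namespace Fixv

/-- the resolvent is a left inverse -/
theorem res_left (T : X →L[ℂ] X) {z : ℂ} (hz : z ∉ spectrum ℂ T) (x : X) :
    resolvent T z (z • x - T x) = x := by
  have hu : IsUnit (algebraMap ℂ (X →L[ℂ] X) z - T) := by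
    by_contra h
    exact hz h
  have h1 : resolvent T z * (algebraMap ℂ (X →L[ℂ] X) z - T) = 1 := Ring.inverse_mul_cancel _ hu
  have h2 := congrArg (fun S : X →L[ℂ] X => S x) h1
  simpa [Algebra.algebraMap_eq_smul_one] using h2

/-- a direction which makes the root simple -/
theorem exists_dir (S : X →L[ℂ] X) (hS : Function.Surjective S) (u : X) (v : X →L[ℂ] ℂ)
    (h : v (S u) = 1) (h0 : v (S (S u)) = 0) : ∃ a, v (S a) = 0 ∧ v (S (S a)) ≠ 0 := by
  by_contra hcon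
  push Not at hcon
  obtain ⟨w, hw⟩ := hS u
  have h1 := hcon (w - v (S w) • u) (by
    rw [map_sub, map_sub, map_smul, map_smul, h, smul_eq_mul, mul_one, sub_self])
  rw [map_sub, map_sub, map_sub, map_smul, map_smul, map_smul, h0, smul_zero, sub_zero, hw, h] at h1
  exact one_ne_zero h1

end Fixv

open Fixv in
/-- FIXV: one functional `v`, typical `u`. -/
theorem dense_fixv [CompleteSpace X] (T : X →L[ℂ] X) (W : Set ℂ) (hW : IsOpen W)
    (c : ℂ) (hcW : c ∈ W) (hc : c ∈ frontier (spectrum ℂ T))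
    (hT : ∀ φ : X →L[ℂ] ℂ, (∀ x, φ (T x) = c * φ x) → φ = 0)
    (v : X →L[ℂ] ℂ) (hv : ¬ ∃ φ : X →L[ℂ] ℂ, ∀ x, φ (c • x - T x) = v x) :
    Dense {u : X | (roots T u v ∩ W).Nonempty} := by
  rw [Metric.dense_iff]
  intro u₀ r hr
  by_contra hcon
  have hno : ∀ u, ‖u - u₀‖ < r → ¬ (roots T u v ∩ W).Nonempty := by
    intro u hu hne
    exact hcon ⟨u, by rwa [mem_ball, dist_eq_norm], hne⟩
  -- no roots at all
  have hne1 : ∀ z ∈ W, z ∉ spectrum ℂ T → ∀ u, ‖u - u₀‖ < r → v (resolvent T z u) ≠ 1 := by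
    intro z hzW hz u hu h1
    by_cases h0 : v (resolvent T z (resolvent T z u)) = 0
    · obtain ⟨a, ha1, ha2⟩ := exists_dir (resolvent T z) (fun x => ⟨z • x - T x, res_left T hz x⟩)
        u v h1 h0
      have ha0 : 0 < ‖a‖ + 1 := by positivity
      have ht : 0 < (r - ‖u - u₀‖) / (‖a‖ + 1) := div_pos (by linarith) ha0
      set t : ℝ := (r - ‖u - u₀‖) / (‖a‖ + 1) with htdef
      have hta : t * (‖a‖ + 1) = r - ‖u - u₀‖ := by
        rw [htdef, div_mul_cancel₀ _ ha0.ne']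
      refine hno (u + (t : ℂ) • a) ?_ ⟨z, ⟨hz, ?_, ?_⟩, hzW⟩
      · calc ‖u + (t : ℂ) • a - u₀‖ = ‖(u - u₀) + (t : ℂ) • a‖ := by congr 1; abel
          _ ≤ ‖u - u₀‖ + ‖(t : ℂ) • a‖ := norm_add_le _ _
          _ = ‖u - u₀‖ + t * ‖a‖ := by
              rw [norm_smul, Complex.norm_real, Real.norm_of_nonneg ht.le]
          _ < r := by nlinarith
      · rw [map_add, map_add, map_smul, map_smul, ha1, smul_zero, add_zero, h1]
      · rw [map_add, map_add, map_add, map_smul, map_smul, map_smul, h0, zero_add, smul_eq_mul]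
        refine mul_ne_zero ?_ ha2
        exact_mod_cast ht.ne'
    · exact hno u hu ⟨z, ⟨hz, h1, h0⟩, hzW⟩
  set δ : ℝ := r / 2 with hδdef
  have hδ : 0 < δ := by positivity
  have hδr : δ < r := by rw [hδdef]; linarith
  -- the bound
  have hbd : ∀ z ∈ W, z ∉ spectrum ℂ T → ∀ a,
      ‖v (resolvent T z a)‖ ≤ δ⁻¹ * ‖v (resolvent T z u₀) - 1‖ * ‖a‖ := by
    intro z hzW hz a
    by_cases ha : a = 0
    · subst ha
      simp
    have ha0 : 0 < ‖a‖ := norm_pos_iff.2 ha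
    have h1 := root_bound (v (resolvent T z u₀) - 1) (v (resolvent T z a)) (δ / ‖a‖)
      (by positivity) (fun s hs h0 => by
        refine hne1 z hzW hz (u₀ + s • a) ?_ ?_
        · rw [add_sub_cancel_left, norm_smul]
          calc ‖s‖ * ‖a‖ ≤ δ / ‖a‖ * ‖a‖ := mul_le_mul_of_nonneg_right hs ha0.le
            _ = δ := div_mul_cancel₀ _ ha0.ne'
            _ < r := hδr
        · rw [map_add, map_add, map_smul, map_smul, smul_eq_mul]
          linear_combination h0)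
    have h2 : ‖v (resolvent T z a)‖ ≤ (δ / ‖a‖)⁻¹ * ‖v (resolvent T z u₀) - 1‖ := by
      rw [inv_mul_eq_div, le_div_iff₀ (by positivity), mul_comm]
      exact h1
    calc ‖v (resolvent T z a)‖ ≤ (δ / ‖a‖)⁻¹ * ‖v (resolvent T z u₀) - 1‖ := h2
      _ = δ⁻¹ * ‖v (resolvent T z u₀) - 1‖ * ‖a‖ := by
          rw [inv_div]
          field_simp
  have hA : ∀ z ∈ W, z ∉ spectrum ℂ T → v (resolvent T z u₀) - 1 ≠ 0 := by
    intro z hzW hz h0
    exact hne1 z hzW hz u₀ (by rwa [sub_self, norm_zero]) (sub_eq_zero.1 h0)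
  -- the functionals
  set φ : ℂ → StrongDual ℂ X := fun z =>
    (v (resolvent T z u₀) - 1)⁻¹ • (v.comp (resolvent T z)) with hφ
  have hφ1 : ∀ z, ∀ x, φ z x = (v (resolvent T z u₀) - 1)⁻¹ * v (resolvent T z x) := by
    intro z x
    rw [hφ]
    simp
  have hφn : ∀ z ∈ W, z ∉ spectrum ℂ T → ‖φ z‖ ≤ δ⁻¹ := by
    intro z hzW hz
    have hA0 : 0 < ‖v (resolvent T z u₀) - 1‖ := norm_pos_iff.2 (hA z hzW hz)
    refine ContinuousLinearMap.opNorm_le_bound _ (by positivity) (fun x => ?_)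
    rw [hφ1, norm_mul, norm_inv, inv_mul_le_iff₀ hA0]
    calc ‖v (resolvent T z x)‖ ≤ δ⁻¹ * ‖v (resolvent T z u₀) - 1‖ * ‖x‖ := hbd z hzW hz x
      _ = _ := by ring
  have hφT : ∀ z, z ∉ spectrum ℂ T → ∀ x,
      φ z (z • x - T x) = (v (resolvent T z u₀) - 1)⁻¹ * v x := by
    intro z hz x
    rw [hφ1, res_left T hz]
  have hφu : ∀ z ∈ W, z ∉ spectrum ℂ T → φ z u₀ = 1 + (v (resolvent T z u₀) - 1)⁻¹ := by
    intro z hzW hz
    have h1 := hA z hzW hz
    rw [hφ1]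
    have h2 : v (resolvent T z u₀) = (v (resolvent T z u₀) - 1) + 1 := by ring
    conv_lhs => rw [h2]
    rw [show v (resolvent T z u₀) - 1 + 1 - 1 = v (resolvent T z u₀) - 1 by ring, mul_add,
      inv_mul_cancel₀ h1, mul_one]
  -- the ultrafilter
  have hclos : c ∈ closure (spectrum ℂ T)ᶜ := by
    rw [frontier_eq_closure_inter_closure] at hc
    exact hc.2
  have hNB : (𝓝[(spectrum ℂ T)ᶜ] c).NeBot := mem_closure_iff_nhdsWithin_neBot.1 hclos
  set U : Ultrafilter ℂ := Ultrafilter.of (𝓝[(spectrum ℂ T)ᶜ] c) with hUdef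
  have hU : (U : Filter ℂ) ≤ 𝓝[(spectrum ℂ T)ᶜ] c := Ultrafilter.of_le _
  have hUc : (U : Filter ℂ) ≤ 𝓝 c := hU.trans nhdsWithin_le_nhds
  have hev : ∀ᶠ z in (U : Filter ℂ), z ∈ W ∧ z ∉ spectrum ℂ T := by
    have e1 : ∀ᶠ z in (U : Filter ℂ), z ∈ W := hUc (hW.mem_nhds hcW)
    have e2 : ∀ᶠ z in (U : Filter ℂ), z ∉ spectrum ℂ T := hU self_mem_nhdsWithin
    exact e1.and e2
  -- the limit
  obtain ⟨ψ, -, hψ⟩ := (WeakDual.isCompact_closedBall (𝕜 := ℂ) (0 : StrongDual ℂ X)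
    δ⁻¹).ultrafilter_le_nhds (U.map (fun z => StrongDual.toWeakDual (φ z))) (by
      rw [Ultrafilter.coe_map, le_principal_iff, mem_map]
      filter_upwards [hev] with z hz
      have h1 : φ z ∈ closedBall (0 : StrongDual ℂ X) δ⁻¹ := by
        rw [mem_closedBall, dist_zero_right]
        exact hφn z hz.1 hz.2
      exact h1)
  have hlim : ∀ x, Tendsto (fun z : ℂ => φ z x) (U : Filter ℂ) (𝓝 (ψ x)) := by
    intro x
    have h1 : Tendsto (fun z => StrongDual.toWeakDual (φ z)) (U : Filter ℂ) (𝓝 ψ) := by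
      rw [Ultrafilter.coe_map] at hψ
      exact hψ
    exact ((WeakDual.eval_continuous x).tendsto ψ).comp h1
  set χ : X →L[ℂ] ℂ := WeakDual.toStrongDual ψ with hχ
  have hlim' : ∀ x, Tendsto (fun z : ℂ => φ z x) (U : Filter ℂ) (𝓝 (χ x)) := hlim
  have hid : Tendsto (fun z : ℂ => z) (U : Filter ℂ) (𝓝 c) := hUc
  have hlimT : ∀ x, Tendsto (fun z : ℂ => (v (resolvent T z u₀) - 1)⁻¹ * v x) (U : Filter ℂ)
      (𝓝 (χ (c • x - T x))) := by
    intro x
    have h1 : Tendsto (fun z : ℂ => φ z (c • x - T x) + (z - c) * φ z x) (U : Filter ℂ)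
        (𝓝 (χ (c • x - T x) + (c - c) * χ x)) :=
      (hlim' _).add ((hid.sub_const c).mul (hlim' x))
    rw [sub_self, zero_mul, add_zero] at h1
    refine h1.congr' ?_
    filter_upwards [hev] with z hz
    rw [← hφT z hz.2 x]
    rw [show z • x - T x = (c • x - T x) + (z - c) • x by rw [sub_smul]; abel, map_add, map_smul,
      smul_eq_mul]
  -- `v ≠ 0`
  have hv0 : ∃ x₁, v x₁ ≠ 0 := by
    by_contra h
    push Not at h
    exact hv ⟨0, fun x => by rw [h x]; rfl⟩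
  obtain ⟨x₁, hx₁⟩ := hv0
  have hg : Tendsto (fun z : ℂ => (v (resolvent T z u₀) - 1)⁻¹) (U : Filter ℂ)
      (𝓝 (χ (c • x₁ - T x₁) * (v x₁)⁻¹)) := by
    have := (hlimT x₁).mul_const (v x₁)⁻¹
    refine this.congr (fun z => ?_)
    rw [mul_assoc, mul_inv_cancel₀ hx₁, mul_one]
  set g : ℂ := χ (c • x₁ - T x₁) * (v x₁)⁻¹ with hgdef
  have hχv : ∀ x, χ (c • x - T x) = g * v x := fun x =>
    tendsto_nhds_unique (hlimT x) (hg.mul_const (v x))
  have hg0 : g = 0 := by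
    by_contra hne
    apply hv
    refine ⟨g⁻¹ • χ, fun x => ?_⟩
    rw [smul_apply, hχv x, smul_eq_mul, ← mul_assoc, inv_mul_cancel₀ hne, one_mul]
  have hχ0 : χ = 0 := by
    apply hT
    intro x
    have h1 := hχv x
    rw [hg0, zero_mul, map_sub, map_smul, smul_eq_mul] at h1
    exact (sub_eq_zero.1 h1).symm
  have h1 : Tendsto (fun z : ℂ => φ z u₀) (U : Filter ℂ) (𝓝 (1 + g)) := by
    refine (hg.const_add 1).congr' ?_
    filter_upwards [hev] with z hz
    exact (hφu z hz.1 hz.2).symm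
  have h2 := tendsto_nhds_unique (hlim' u₀) h1
  rw [hχ0, hg0, add_zero] at h2
  exact zero_ne_one h2

end Pool.Agent.J4.H89.RP
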