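import Mathlib
import Pool.Agent.J4.H89.RP.Defs

/-!
# Typical rank one perturbations of arbitrary operators: the lattice of spectral subspaces
-/

set_option autoImplicit false

open Metric Set Filter Topology
open scoped Polynomial

namespace Pool.Agent.J4.H89.RP

variable {X : Type} [NormedAddCommGroup X] [NormedSpace ℂ X]

namespace Hyp

theorem inv_left (T : X →L[ℂ] X) {z : ℂ} (hz : z ∉ spectrum ℂ T) (x : X) :
    resolvent T z (z • x - T x) = x := by
  have hu : IsUnit (algebraMap ℂ (X →L[ℂ] X) z - T) := spectrum.notMem_iff.1 hz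
  have h := congrArg (fun A : X →L[ℂ] X => A x) (Ring.inverse_mul_cancel _ hu)
  simpa [resolvent, Algebra.algebraMap_eq_smul_one] using h

theorem inv_right (T : X →L[ℂ] X) {z : ℂ} (hz : z ∉ spectrum ℂ T) (x : X) :
    z • resolvent T z x - T (resolvent T z x) = x := by
  have hu : IsUnit (algebraMap ℂ (X →L[ℂ] X) z - T) := spectrum.notMem_iff.1 hz
  have h := congrArg (fun A : X →L[ℂ] X => A x) (Ring.mul_inverse_cancel _ hu)
  simpa [resolvent, Algebra.algebraMap_eq_smul_one] using h

theorem pert_apply (T : X →L[ℂ] X) (u : X) (v : X →L[ℂ] ℂ) (x : X) :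
    pert T u v x = T x + v x • u := by
  simp [pert]

theorem pert_eig (T : X →L[ℂ] X) (u : X) (v : X →L[ℂ] ℂ) {z : ℂ} (hz : z ∈ roots T u v) :
    pert T u v (resolvent T z u) = z • resolvent T z u := by
  have h := inv_right T hz.1 u
  rw [pert_apply, hz.2.1, one_smul]
  rw [sub_eq_iff_eq_add] at h
  rw [h, add_comm]

theorem eig_unique (T : X →L[ℂ] X) (u : X) (v : X →L[ℂ] ℂ) {z : ℂ} (hz : z ∈ roots T u v)
    (x : X) (hx : pert T u v x = z • x) : x = v x • resolvent T z u := by
  have h := inv_left T hz.1 x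
  rw [← hx, pert_apply, add_sub_cancel_left, map_smul] at h
  exact h.symm

/-- the biorthogonal functionals -/
noncomputable def phi (T : X →L[ℂ] X) (v : X →L[ℂ] ℂ) (z : ℂ) : X →L[ℂ] ℂ := v.comp (resolvent T z)

theorem phi_ne (T : X →L[ℂ] X) (u : X) (v : X →L[ℂ] ℂ) {z : ℂ} (hz : z ∈ roots T u v) :
    phi T v z (resolvent T z u) ≠ 0 := hz.2.2

theorem phi_zero (T : X →L[ℂ] X) (u : X) (v : X →L[ℂ] ℂ) {z w : ℂ} (hz : z ∈ roots T u v)
    (hw : w ∈ roots T u v) (hzw : z ≠ w) : phi T v z (resolvent T w u) = 0 := by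
  have h1 : u = (w - z) • resolvent T w u + (z • resolvent T w u - T (resolvent T w u)) := by
    have := inv_right T hw.1 u
    rw [sub_smul]
    nth_rewrite 1 [← this]
    abel
  have h2 : resolvent T z u = (w - z) • resolvent T z (resolvent T w u) + resolvent T w u := by
    nth_rewrite 1 [h1]
    rw [map_add, map_smul, inv_left T hz.1]
  have h3 := congrArg v h2
  rw [map_add, map_smul, hz.2.1, hw.2.1] at h3
  have h4 : (w - z) • v (resolvent T z (resolvent T w u)) = 0 := by
    rw [eq_comm] at h3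
    simpa using h3
  rcases smul_eq_zero.1 h4 with h | h
  · exact absurd (sub_eq_zero.1 h).symm hzw
  · exact h

theorem phi_span (T : X →L[ℂ] X) (u : X) (v : X →L[ℂ] ℂ) {z : ℂ} {M : Set ℂ}
    (hz : z ∈ roots T u v) (hM : M ⊆ roots T u v) (hzM : z ∉ M) :
    ∀ x ∈ spanOf T u M, phi T v z x = 0 := by
  have h1 : Submodule.span ℂ ((fun z => resolvent T z u) '' M) ≤ (phi T v z).ker := by
    rw [Submodule.span_le]
    rintro _ ⟨w, hw, rfl⟩
    exact phi_zero T u v hz (hM hw) fun h => hzM (h ▸ hw)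
  have h2 : spanOf T u M ≤ (phi T v z).ker :=
    Submodule.topologicalClosure_minimal _ h1 (phi T v z).isClosed_ker
  intro x hx
  exact h2 hx

theorem mem_spanOf (T : X →L[ℂ] X) (u : X) {z : ℂ} {M : Set ℂ} (hz : z ∈ M) :
    resolvent T z u ∈ spanOf T u M :=
  Submodule.le_topologicalClosure _ (Submodule.subset_span ⟨z, hz, rfl⟩)

/-- a biorthogonal system is linearly independent -/
theorem linInd {V ι : Type} [AddCommGroup V] [Module ℂ V] (e : ι → V) (f : ι → V →ₗ[ℂ] ℂ)
    (h0 : ∀ i j, i ≠ j → f i (e j) = 0) (h1 : ∀ i, f i (e i) ≠ 0) : LinearIndependent ℂ e := by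
  rw [linearIndependent_iff']
  intro s g hg i hi
  have h2 := congrArg (f i) hg
  rw [map_sum, map_zero, Finset.sum_eq_single_of_mem i hi] at h2
  · rw [map_smul, smul_eq_zero] at h2
    exact h2.resolve_right (h1 i)
  · intro j _ hj
    rw [map_smul, h0 i j (Ne.symm hj), smul_zero]

theorem not_fin {V ι : Type} [AddCommGroup V] [Module ℂ V] [Infinite ι] (e : ι → V)
    (f : ι → V →ₗ[ℂ] ℂ) (h0 : ∀ i j, i ≠ j → f i (e j) = 0) (h1 : ∀ i, f i (e i) ≠ 0) :
    ¬ FiniteDimensional ℂ V := by
  intro hV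
  have := (linInd e f h0 h1).finite
  exact not_finite ι

end Hyp

open Hyp in
/-- HYP: these subspaces are invariant under everything that commutes with the perturbed operator; they
are ordered as the sets `M` (the functional `v ∘ R(z)` vanishes at the other eigenvectors, resolvent
identity); infinite dimension and codimension. -/
theorem hyp [CompleteSpace X] (T : X →L[ℂ] X) (u : X) (v : X →L[ℂ] ℂ) :
    (∀ M ⊆ roots T u v, ∀ Q : X →L[ℂ] X, Q * pert T u v = pert T u v * Q →
      ∀ x ∈ spanOf T u M, Q x ∈ spanOf T u M) ∧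
    (∀ M ⊆ roots T u v, ∀ N ⊆ roots T u v, (spanOf T u M ≤ spanOf T u N ↔ M ⊆ N)) ∧
    (∀ M ⊆ roots T u v, M.Infinite → ¬ FiniteDimensional ℂ (spanOf T u M)) ∧
    (∀ M ⊆ roots T u v, (roots T u v \ M).Infinite → ¬ FiniteDimensional ℂ (X ⧸ spanOf T u M)) := by
  refine ⟨?_, ?_, ?_, ?_⟩
  · intro M hM Q hQ x hx
    have h1 : Submodule.span ℂ ((fun z => resolvent T z u) '' M) ≤
        (Submodule.span ℂ ((fun z => resolvent T z u) '' M)).comap (Q : X →ₗ[ℂ] X) := by
      rw [Submodule.span_le]
      rintro _ ⟨z, hz, rfl⟩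
      have h2 : pert T u v (Q (resolvent T z u)) = z • Q (resolvent T z u) := by
        have h3 := congrArg (fun A : X →L[ℂ] X => A (resolvent T z u)) hQ
        have h4 : Q (pert T u v (resolvent T z u)) = pert T u v (Q (resolvent T z u)) := h3
        rw [← h4, pert_eig T u v (hM hz), map_smul]
      have h5 := eig_unique T u v (hM hz) _ h2
      change Q (resolvent T z u) ∈ Submodule.span ℂ ((fun z => resolvent T z u) '' M)
      rw [h5]
      exact Submodule.smul_mem _ _ (Submodule.subset_span ⟨z, hz, rfl⟩)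
    have h6 : MapsTo Q (Submodule.span ℂ ((fun z => resolvent T z u) '' M) : Set X)
        (Submodule.span ℂ ((fun z => resolvent T z u) '' M) : Set X) := fun y hy => h1 hy
    exact map_mem_closure Q.continuous hx h6
  · intro M hM N hN
    constructor
    · intro h z hz
      by_contra hzN
      exact phi_ne T u v (hM hz) (phi_span T u v (hM hz) hN hzN _ (h (mem_spanOf T u hz)))
    · intro h
      exact Submodule.topologicalClosure_mono (Submodule.span_mono (image_mono h))
  · intro M hM hinf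
    have := hinf.to_subtype
    refine not_fin (ι := M) (V := spanOf T u M) (fun z => ⟨resolvent T (z : ℂ) u, mem_spanOf T u z.2⟩)
      (fun z => (phi T v (z : ℂ) : X →ₗ[ℂ] ℂ).comp (spanOf T u M).subtype) ?_ ?_
    · intro z w hzw
      exact phi_zero T u v (hM z.2) (hM w.2) fun h => hzw (Subtype.ext h)
    · intro z
      exact phi_ne T u v (hM z.2)
  · intro M hM hinf
    have := hinf.to_subtype
    refine not_fin (ι := ↥(roots T u v \ M)) (V := X ⧸ spanOf T u M)
      (fun z => (spanOf T u M).mkQ (resolvent T (z : ℂ) u))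
      (fun z => (spanOf T u M).liftQ (phi T v (z : ℂ) : X →ₗ[ℂ] ℂ)
        (fun x hx => phi_span T u v z.2.1 hM z.2.2 x hx)) ?_ ?_
    · intro z w hzw
      exact phi_zero T u v z.2.1 w.2.1 fun h => hzw (Subtype.ext h)
    · intro z
      exact phi_ne T u v z.2.1

end Pool.Agent.J4.H89.RP
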