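import Pool.Agent.J4.H89.RP.Dense2
import Pool.Agent.J4.H89.RP.Pole
import Pool.Agent.J4.H89.RP.Open
import Pool.Agent.J4.H89.RP.Hyp
import Pool.Agent.J4.H89.RP.Eig0
import Pool.Agent.J4.H89.RP.Fixv
import Pool.Agent.J4.H89.RP.Fixu

set_option autoImplicit false

open Metric Set Filter Topology

namespace Pool.Agent.J4.H89.RP

variable {X : Type} [NormedAddCommGroup X] [NormedSpace ℂ X]

/-- `z` is an algebraically simple eigenvalue of `A` -/
def Simple (A : X →L[ℂ] X) (z : ℂ) : Prop :=
  ∃ x : X, x ≠ 0 ∧ A x = z • x ∧ ∀ y : X, (∃ c : ℂ, A y - z • y = c • x) → ∃ c : ℂ, y = c • x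

theorem res_mul (T : X →L[ℂ] X) (z : ℂ) (hz : z ∉ spectrum ℂ T) (x : X) :
    z • resolvent T z x - T (resolvent T z x) = x ∧ resolvent T z (z • x - T x) = x := by
  have hz' : IsUnit (algebraMap ℂ (X →L[ℂ] X) z - T) := by
    rw [spectrum.notMem_iff] at hz
    exact hz
  have h1 : (algebraMap ℂ (X →L[ℂ] X) z - T) * resolvent T z = 1 := by
    unfold resolvent
    exact Ring.mul_inverse_cancel _ hz'
  have h2 : resolvent T z * (algebraMap ℂ (X →L[ℂ] X) z - T) = 1 := by
    unfold resolvent
    exact Ring.inverse_mul_cancel _ hz'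
  constructor
  · have := congrArg (fun S : X →L[ℂ] X => S x) h1
    simpa [Algebra.algebraMap_eq_smul_one] using this
  · have := congrArg (fun S : X →L[ℂ] X => S x) h2
    simpa [Algebra.algebraMap_eq_smul_one] using this

theorem simple_of_root [CompleteSpace X] (T : X →L[ℂ] X) (u : X) (v : X →L[ℂ] ℂ) (z : ℂ)
    (hz : z ∈ roots T u v) : Simple (pert T u v) z := by
  obtain ⟨h1, h2, h3, h4⟩ := eig0 T u v z hz
  refine ⟨resolvent T z u, h1, h2, ?_⟩
  rintro y ⟨c, hc⟩
  refine h3 y (h4 y ?_)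
  rw [hc, map_smul, h2, smul_comm]

/-- the roots are exactly the simple eigenvalues outside the spectrum -/
theorem roots_eq [CompleteSpace X] (T : X →L[ℂ] X) (u : X) (v : X →L[ℂ] ℂ) :
    roots T u v = {z | z ∉ spectrum ℂ T ∧ Simple (pert T u v) z} := by
  ext z
  refine ⟨fun hz => ⟨hz.1, simple_of_root T u v z hz⟩, ?_⟩
  rintro ⟨hz, x, hx0, hx, hsim⟩
  have hpx : ∀ y, pert T u v y = T y + v y • u := fun y => by
    simp [pert]
  have e1 : z • x - T x = v x • u := by
    rw [← hx, hpx]
    abel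
  have e2 : x = v x • resolvent T z u := by
    have := (res_mul T z hz x).2
    rw [e1, map_smul] at this
    exact this.symm
  have hvx : v x ≠ 0 := by
    intro h0
    rw [h0, zero_smul] at e2
    exact hx0 e2
  have e3 : v (resolvent T z u) = 1 := by
    have := congrArg v e2
    rw [map_smul, smul_eq_mul] at this
    field_simp at this
    exact this.symm
  refine ⟨hz, e3, fun h0 => ?_⟩
  set y : X := resolvent T z (resolvent T z u) with hy
  have e4 : pert T u v y - z • y = (-(v x)⁻¹) • x := by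
    rw [hpx, h0, zero_smul, add_zero]
    have h1 := (res_mul T z hz (resolvent T z u)).1
    rw [← hy] at h1
    have h2 : (v x)⁻¹ • x = resolvent T z u := by
      conv_lhs => rw [e2]
      rw [map_smul, smul_eq_mul, e3, mul_one, smul_smul, inv_mul_cancel₀ hvx, one_smul]
    rw [neg_smul, h2, ← h1]
    abel
  obtain ⟨c, hc⟩ := hsim y ⟨_, e4⟩
  have h5 : c * v x = 0 := by
    rw [← smul_eq_mul, ← map_smul, ← hc]
    exact h0
  have h6 : c = 0 := (mul_eq_zero.1 h5).resolve_right hvx
  rw [h6, zero_smul] at hc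
  have h7 := (res_mul T z hz (resolvent T z u)).1
  rw [← hy, hc, smul_zero, map_zero, sub_zero] at h7
  rw [← h7, map_zero] at e3
  exact zero_ne_one e3

/-- From density for small open sets to accumulation at all points of a set, simultaneously. -/
theorem residual_acc {Y : Type} [TopologicalSpace Y] (R : Y → Set ℂ) (S : Set ℂ)
    (ho : ∀ W : Set ℂ, IsOpen W → IsOpen {y | (R y ∩ W).Nonempty})
    (hd : ∀ W : Set ℂ, IsOpen W → (W ∩ S).Nonempty → Dense {y | (R y ∩ W).Nonempty}) :
    {y | ∀ c ∈ S, ∀ ε : ℝ, 0 < ε → ∃ z ∈ R y, ‖z - c‖ < ε} ∈ residual Y := by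
  have hB := TopologicalSpace.countable_countableBasis ℂ
  have h1 : (⋂ b ∈ TopologicalSpace.countableBasis ℂ,
      {y | (b ∩ S).Nonempty → (R y ∩ b).Nonempty}) ∈ residual Y := by
    rw [countable_bInter_mem hB]
    intro b hb
    have hbo := TopologicalSpace.isOpen_of_mem_countableBasis hb
    by_cases h : (b ∩ S).Nonempty
    · have h2 := residual_of_dense_open (ho b hbo) (hd b hbo h)
      filter_upwards [h2] with y hy _
      exact hy
    · filter_upwards with y hy
      exact absurd hy h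
  filter_upwards [h1] with y hy c hc ε hε
  obtain ⟨b, hb, hcb, hbs⟩ := (TopologicalSpace.isBasis_countableBasis ℂ).exists_subset_of_mem_open
    (mem_ball_self hε : c ∈ ball c ε) isOpen_ball
  have h2 := mem_iInter₂.1 hy b hb ⟨c, hcb, hc⟩
  obtain ⟨z, hz, hzb⟩ := h2
  refine ⟨z, hz, ?_⟩
  have := hbs hzb
  rwa [mem_ball, dist_eq_norm] at this

end Pool.Agent.J4.H89.RP
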